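import Pool.Agent.Helper76.FT.LeafRel
import Pool.Agent.Helper10.FT.LeafDef

/-!
# Leaf functions: the interface of helper10
-/

set_option autoImplicit false

namespace Pool.Agent.Helper76.FT.Leaf

open Complex Set Filter Topology MeasureTheory

variable {S : Sys}

theorem nb_sub {t r : ℝ} (ht : t ∈ Icc (0:ℝ) 1) (h : S.Ok) {z : ℂ × ℂ} (hz : z ∈ S.Nb t r) :
    (z.1 - 1, z.2) ∈ S.Nb t r := by
  obtain ⟨y, hy, h1, h2⟩ := hz
  have hab : S.a ≤ S.b := (h.ha.trans h.hb).le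
  refine ⟨(y.1 - 1, y.2), ?_, ?_, h2⟩
  · have e1 := h.Vper S.a ⟨le_rfl, hab⟩ (y.1 - 1) t ht
    have e2 := h.Vper S.b ⟨hab, le_rfl⟩ (y.1 - 1) t ht
    rw [sub_add_cancel] at e1 e2
    refine ⟨?_, ?_⟩
    · show S.V S.a (y.1 - 1) t ≤ y.2
      rw [← e1]; exact hy.1
    · show y.2 ≤ S.V S.b (y.1 - 1) t
      rw [← e2]; exact hy.2
  · have e : z.1 - 1 - ((y.1 - 1 : ℝ) : ℂ) = z.1 - y.1 := by push_cast; ring
    show ‖z.1 - 1 - ((y.1 - 1 : ℝ) : ℂ)‖ < r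
    rw [e]; exact h1

theorem tr_sub_mem (h : S.Ok) {s q v w : ℂ} (hζ : (s, q, v, w) ∈ Om S) :
    (s, q - 1, v, w) ∈ Om S := by
  intro x hx
  show ((q - 1) - s * (v + x * (w - v)), v + x * (w - v)) ∈ S.Nb 0 S.R
  have h1 := nb_sub ⟨le_rfl, zero_le_one⟩ h (hζ x hx)
  have e : ((q - 1) - s * (v + x * (w - v)), v + x * (w - v)) =
      ((pt ((s, q, v, w), (x : ℂ))).1 - 1, (pt ((s, q, v, w), (x : ℂ))).2) := by
    simp only [pt, Prod.mk.injEq, and_true]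
    ring
  rw [e]; exact h1

theorem I0_bd (h : S.Ok) {M : ℝ} (hM : ∀ z ∈ S.Nb 0 S.R, ‖S.κ z.1 z.2‖ ≤ M) {ζ : ℂ × ℂ × ℂ × ℂ}
    (hζ : ζ ∈ Om S) : ‖I0 S ζ‖ ≤ M := by
  have h1 : ‖∫ x in (0:ℝ)..1, kk S (ζ, (x : ℂ))‖ ≤ M * |1 - 0| := by
    refine intervalIntegral.norm_integral_le_of_norm_le_const fun x hx => ?_
    rw [uIoc_of_le zero_le_one] at hx
    exact hM _ (hζ x ⟨hx.1.le, hx.2⟩)
  rw [sub_zero, abs_one, mul_one] at h1
  exact h1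

/-- the interface -/
theorem glf (_ : GReg) (hMom : GMom) : Pool.Agent.Helper10.FT.GLF := by
  intro S h
  obtain ⟨k0, hk0, hk⟩ := h.κpos
  obtain ⟨M, hM⟩ := h.κbd
  obtain ⟨k0', hk0', hI0⟩ := re_I0 h
  refine ⟨Om S, fA S, fJ S, fG S, fR S, k0 / (|M| + 1), by positivity, ?_⟩
  have hrA : ∀ s q v w : ℝ, ((s : ℂ), (q : ℂ), (v : ℂ), (w : ℂ)) ∈ Om S →
      (fA S ((s : ℂ), (q : ℂ), (v : ℂ), (w : ℂ))).im = 0 := fun s q v w hζ =>
    im_real (S := S) (f := fA S) (fun ζ hζ => A_cj h hζ) (s := s) (q := q) (v := v) (w := w) hζ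
  have hrJ : ∀ s q v w : ℝ, ((s : ℂ), (q : ℂ), (v : ℂ), (w : ℂ)) ∈ Om S →
      (fJ S ((s : ℂ), (q : ℂ), (v : ℂ), (w : ℂ))).im = 0 := fun s q v w hζ =>
    im_real (S := S) (f := fJ S) (fun ζ hζ => J_cj h hζ) (s := s) (q := q) (v := v) (w := w) hζ
  have hrG : ∀ s q v w : ℝ, ((s : ℂ), (q : ℂ), (v : ℂ), (w : ℂ)) ∈ Om S →
      (fG S ((s : ℂ), (q : ℂ), (v : ℂ), (w : ℂ))).im = 0 := fun s q v w hζ =>
    im_real (S := S) (f := fG S) (fun ζ hζ => G_cj h hζ) (s := s) (q := q) (v := v) (w := w) hζ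
  have hrR : ∀ s q v w : ℝ, ((s : ℂ), (q : ℂ), (v : ℂ), (w : ℂ)) ∈ Om S →
      (fR S ((s : ℂ), (q : ℂ), (v : ℂ), (w : ℂ))).im = 0 := fun s q v w hζ =>
    im_real (S := S) (f := fR S) (fun ζ hζ => R_cj h hζ) (s := s) (q := q) (v := v) (w := w) hζ
  have hper : ∀ s q v w : ℂ, (s, q, v, w) ∈ Om S → (s, q + 1, v, w) ∈ Om S ∧
      (s, q - 1, v, w) ∈ Om S ∧
      fA S (s, q + 1, v, w) = fA S (s, q, v, w) ∧ fJ S (s, q + 1, v, w) = fJ S (s, q, v, w) ∧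
      fG S (s, q + 1, v, w) = fG S (s, q, v, w) ∧ fR S (s, q + 1, v, w) = fR S (s, q, v, w) := by
    intro s q v w hζ
    have e1 := tr_mem h (ζ := (s, q, v, w)) hζ
    have e2 := tr_sub_mem h hζ
    have e3 := A_tr h (ζ := (s, q, v, w)) hζ
    have e4 := J_tr h (ζ := (s, q, v, w)) hζ
    have e5 := G_tr h (ζ := (s, q, v, w)) hζ
    have e6 := R_tr h (ζ := (s, q, v, w)) hζ
    have et : tr (s, q, v, w) = (s, q + 1, v, w) := rfl
    rw [et] at e1 e3 e4 e5 e6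
    exact ⟨e1, e2, e3, e4, e5, e6⟩
  have hmem : ∀ s ∈ Icc (0:ℝ) 1, ∀ (q v : ℝ) (w : ℂ), (q, v) ∈ S.Reg s → (q, w.re) ∈ S.Reg s →
      |w.im| < S.r → ((s : ℂ), (q : ℂ), (v : ℂ), w) ∈ Om S :=
    fun s hs q v w hv hw him => mem_Om h hs hv hw him
  have hkey : ∀ s q v w : ℂ, (s, q, v, w) ∈ Om S → w ≠ v →
      fderiv ℂ (fJ S) (s, q, v, w) (0, 0, 0, 1)
        + fR S (s, q, v, w) * fderiv ℂ (fA S) (s, q, v, w) (0, 0, 0, 1) =
      fderiv ℂ (fG S) (s, q, v, w) (0, 0, 0, 1) := fun s q v w hζ hwv => cancel h hζ hwv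
  have hpos : ∀ s ∈ Icc (0:ℝ) 1, ∀ q v w : ℝ, (q, v) ∈ S.Reg s → (q, w) ∈ S.Reg s →
      k0 / (|M| + 1) ≤
        (fderiv ℂ (fG S) ((s : ℂ), (q : ℂ), (v : ℂ), (w : ℂ)) (0, 0, 0, 1)).re := by
    intro s hs q v w hv hw
    have hr := h.hr
    have hζ : ((s : ℂ), (q : ℂ), (v : ℂ), (w : ℂ)) ∈ Om S :=
      mem_Om h hs hv (by simpa using hw) (by simpa using hr)
    rw [fderiv_w ((diff_G h).differentiableAt ((isOpen_Om S).mem_nhds hζ)) (G_w h hζ)]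
    have hz : ((q : ℂ) - s * w, (w : ℂ)) ∈ S.Nb 0 S.R := by
      have := hζ 1 ⟨zero_le_one, le_rfl⟩
      simpa [pt] using this
    have hre := hk _ hz
    have hnm := hM _ hz
    have hsym := h.κsym _ hz
    have him : (S.κ ((q : ℂ) - s * w) w).im = 0 := by
      simp only [map_sub, map_mul, Complex.conj_ofReal] at hsym
      exact Complex.conj_eq_iff_im.1 hsym.symm
    have hi0 : (I0 S ((s : ℂ), (q : ℂ), (v : ℂ), (w : ℂ))).im = 0 :=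
      im_real (S := S) (f := I0 S) (fun ζ hζ => I0_cj h hζ) (s := s) (q := q) (v := v) (w := w) hζ
    have hps := hI0 _ hζ
    have hbd := I0_bd h hM hζ
    set a : ℂ := S.κ ((q : ℂ) - s * w) w with ha
    set b : ℂ := I0 S ((s : ℂ), (q : ℂ), (v : ℂ), (w : ℂ)) with hb
    have ea : a = (a.re : ℂ) := Complex.ext (by simp) (by simp [him])
    have eb : b = (b.re : ℂ) := Complex.ext (by simp) (by simp [hi0])
    have e : (a / b).re = a.re / b.re := by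
      rw [ea, eb, ← Complex.ofReal_div]
      simp
    rw [e]
    have hb1 : 0 < b.re := lt_of_lt_of_le hk0' hps
    have hb2 : b.re ≤ |M| + 1 := by
      have h1 := Complex.re_le_norm b
      have h2 := le_abs_self M
      linarith
    exact div_le_div₀ (hk0.le.trans hre) hre hb1 hb2
  exact ⟨isOpen_Om S, diff_A h, diff_J h, diff_G h, diff_R h, hrA, hrJ, hrG, hrR, hper, hmem,
    fun s hs q v w hv hw him => A_eq h hMom hs hv hw him,
    fun s hs q v w hv hw him => JA_eq h hMom hs hv hw him,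
    fun s q v w hζ => J_sub h hζ, hkey, hpos⟩

end Pool.Agent.Helper76.FT.Leaf
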