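import Pool.Agent.Helper76.FT.Sys

/-!
# Part G: geometry of complex tori

Each `def ... : Prop` is a lemma to be proved elsewhere.
-/

set_option autoImplicit false

namespace Pool.Agent.Helper76.FT

open Complex Set Filter Topology

/-! ### The real region, the leaves -/

/-- elementary facts on the region and on the leaves -/
def GReg : Prop :=
  ∀ S : Sys, S.Ok →
    -- every point of the region is on a leaf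
    (∀ t ∈ Icc (0:ℝ) 1, ∀ y ∈ S.Reg t, ∃ Y ∈ Icc S.a S.b, y.2 = S.V Y y.1 t) ∧
    (∀ t ∈ Icc (0:ℝ) 1, ∀ q : ℝ, ∀ Y ∈ Icc S.a S.b, (q, S.V Y q t) ∈ S.Reg t) ∧
    -- straight motion preserves the region
    (∀ t ∈ Icc (0:ℝ) 1, ∀ s ∈ Icc (0:ℝ) 1, ∀ y ∈ S.Reg t, (y.1 + (s - t) * y.2, y.2) ∈ S.Reg s) ∧
    (∀ t ∈ Icc (0:ℝ) 1, ∀ s ∈ Icc (0:ℝ) 1, ∀ y ∈ S.Reg t, (y.1, s * y.2) ∈ S.Reg t) ∧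
    (∃ M : ℝ, ∀ t ∈ Icc (0:ℝ) 1, ∀ y ∈ S.Reg t, |y.2| ≤ M) ∧
    -- neighbourhoods: open (also jointly in time), invariant
    (∀ t r : ℝ, IsOpen (S.Nb t r)) ∧
    (∀ r : ℝ, ∀ t ∈ Icc (0:ℝ) 1, ∀ z ∈ S.Nb t r, ∀ᶠ y : ℝ × (ℂ × ℂ) in
      𝓝[Icc (0:ℝ) 1 ×ˢ univ] (t, z), y.2 ∈ S.Nb y.1 r) ∧
    (∀ r : ℝ, ∀ t ∈ Icc (0:ℝ) 1, ∀ z ∈ S.Nb t r, (z.1 + 1, z.2) ∈ S.Nb t r ∧
      (z.1 - 1, z.2) ∈ S.Nb t r ∧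
      ((starRingEnd ℂ) z.1, (starRingEnd ℂ) z.2) ∈ S.Nb t r) ∧
    -- a point with real position and small imaginary velocity, moved to the time `s`
    (∀ t ∈ Icc (0:ℝ) 1, ∀ s ∈ Icc (0:ℝ) 1, ∀ (q : ℝ) (v : ℂ), (q, v.re) ∈ S.Reg t →
      |v.im| < S.r → ((q : ℂ) + (s - t) * v, v) ∈ S.Nb s S.r) ∧
    -- leaves
    (∀ Y ∈ Icc S.a S.b, StrictMono (S.g Y) ∧ Continuous (S.g Y) ∧ StrictMono (S.gi Y) ∧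
      Continuous (S.gi Y) ∧ (∀ x, S.g Y (S.gi Y x) = x ∧ S.gi Y (S.g Y x) = x ∧
        S.g Y (x + 1) = S.g Y x + 1 ∧ S.gi Y (x + 1) = S.gi Y x + 1)) ∧
    (∀ Y ∈ Icc S.a S.b, ∀ Y' ∈ Icc S.a S.b, Y < Y' → ∀ x, S.g Y x < S.g Y' x ∧
      S.gi Y' x < S.gi Y x) ∧
    (∀ Y ∈ Icc S.a S.b, ∀ (x : ℝ) (n : ℤ), S.orb Y x (n + 1) = S.g Y (S.orb Y x n) ∧
      S.orb Y x n = S.gi Y (S.orb Y x (n + 1)) ∧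
      S.orb Y x (n + 1) = S.orb Y x n + S.vel Y x n ∧
      S.V Y (S.orb Y x (n + 1)) 1 = S.vel Y x n ∧
      (∀ k : ℤ, S.orb Y (S.orb Y x n) k = S.orb Y x (n + k)) ∧
      (∀ k : ℤ, S.orb Y (x + k) n = S.orb Y x n + k)) ∧
    (∀ n : ℤ, ContinuousOn (fun z : ℝ × ℝ => S.orb z.1 z.2 n) (Icc S.a S.b ×ˢ univ))

/-- momentum and energy -/
def GMom : Prop :=
  ∀ S : Sys, S.Ok → ∃ k0 M : ℝ, 0 < k0 ∧ 0 < M ∧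
    ContinuousOn (fun y : ℝ × (ℂ × ℂ) => S.p y.1 y.2.1 y.2.2)
      {y | y.1 ∈ Icc (0:ℝ) 1 ∧ y.2 ∈ S.Nb y.1 S.r} ∧
    ContinuousOn (fun y : ℝ × (ℂ × ℂ) => S.En y.1 y.2.1 y.2.2)
      {y | y.1 ∈ Icc (0:ℝ) 1 ∧ y.2 ∈ S.Nb y.1 S.r} ∧
    ∀ t ∈ Icc (0:ℝ) 1,
      DifferentiableOn ℂ (fun z : ℂ × ℂ => S.p t z.1 z.2) (S.Nb t S.r) ∧
      DifferentiableOn ℂ (fun z : ℂ × ℂ => S.En t z.1 z.2) (S.Nb t S.r) ∧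
      ∀ z ∈ S.Nb t S.r,
        HasDerivAt (fun w => S.p t z.1 w) (S.κ (z.1 - t * z.2) z.2) z.2 ∧
        HasDerivAt (fun w => S.En t z.1 w) (z.2 * S.κ (z.1 - t * z.2) z.2) z.2 ∧
        HasDerivWithinAt (fun t' => S.p t' z.1 z.2) (-deriv (fun q => S.En t q z.2) z.1)
          (Icc (0:ℝ) 1) t ∧
        k0 ≤ (S.κ (z.1 - t * z.2) z.2).re ∧ ‖S.κ (z.1 - t * z.2) z.2‖ ≤ M ∧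
        ‖S.p t z.1 z.2‖ ≤ M ∧ ‖S.En t z.1 z.2‖ ≤ M ∧
        S.p t (z.1 + 1) z.2 = S.p t z.1 z.2 ∧ S.En t (z.1 + 1) z.2 = S.En t z.1 z.2 ∧
        S.p t ((starRingEnd ℂ) z.1) ((starRingEnd ℂ) z.2) = (starRingEnd ℂ) (S.p t z.1 z.2) ∧
        S.En t ((starRingEnd ℂ) z.1) ((starRingEnd ℂ) z.2) = (starRingEnd ℂ) (S.En t z.1 z.2)

/-- mean momentum of the leaves -/
def GMn : Prop :=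
  ∀ S : Sys, S.Ok → ContinuousOn S.mn (Icc S.a S.b) ∧ StrictMonoOn S.mn (Icc S.a S.b) ∧
    S.mn 0 = 0

/-! ### Charts -/

/-- `chi` is a local homeomorphism (as a statement on filters) and the velocity field is
holomorphic in this coordinate, on both sides of a kick -/
def GChart : Prop :=
  ∀ S : Sys, S.Ok → ∀ (δ ρ : ℝ) (w : ℂ → ℝ → ℂ) (c : ℂ), Tor S δ w ρ c → ∀ z₁ : ℝ × ℝ,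
    Filter.map (chi w z₁) (𝓝 z₁) = 𝓝 0 ∧
    ((∀ n : ℤ, z₁.2 ≠ n) →
      ∀ᶠ z in 𝓝 z₁, wt w z = w ((z₁.1 : ℂ) + chi w z₁ z) (Int.fract z₁.2)) ∧
    (∀ n : ℤ, z₁.2 = n →
      ∀ᶠ z in 𝓝 z₁, (z₁.2 ≤ z.2 → wt w z = w ((z₁.1 : ℂ) + chi w z₁ z) 0) ∧
        (z.2 < z₁.2 → wt w z = w ((z₁.1 : ℂ) + chi w z₁ z) 1))

/-- open mapping alternative, and composition -/
def GOM : Prop :=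
  ∀ S : Sys, S.Ok → ∀ (δ ρ : ℝ) (w : ℂ → ℝ → ℂ) (c : ℂ), Tor S δ w ρ c → ∀ z₁ : ℝ × ℝ,
    (∀ f : ℝ × ℝ → ℂ, TH w f z₁ →
      ((∀ᶠ z in 𝓝 z₁, f z = f z₁) ∨ 𝓝 (f z₁) ≤ Filter.map f (𝓝 z₁)) ∧ ContinuousAt f z₁) ∧
    (∀ (f g : ℝ × ℝ → ℂ) (Φ : ℂ × ℂ → ℂ) (D : Set (ℂ × ℂ)), IsOpen D → DifferentiableOn ℂ Φ D →
      (f z₁, g z₁) ∈ D → TH w f z₁ → TH w g z₁ → TH w (fun z => Φ (f z, g z)) z₁)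

/-! ### The slope bound -/

/-- velocity in the layer `[0, 1]` of the world line through `z`, `-1 ≤ z.2 < 2` -/
noncomputable def OmF (S : Sys) (w : ℂ → ℝ → ℂ) (z : ℝ × ℝ) : ℂ :=
  if z.2 < 0 then S.K ((z.1 : ℂ) - z.2 * wt w z) (wt w z)
  else if z.2 < 1 then wt w z
  else S.Ki ((z.1 : ℂ) + (1 - z.2) * wt w z) (wt w z)

/-- position at the time `t₀ ∈ [0, 1]` of the world line through `z` -/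
noncomputable def XF (S : Sys) (w : ℂ → ℝ → ℂ) (t₀ : ℝ) (z : ℝ × ℝ) : ℂ :=
  if z.2 < 0 then (z.1 : ℂ) - z.2 * wt w z + t₀ * OmF S w z
  else if z.2 < 1 then (z.1 : ℂ) + (t₀ - z.2) * wt w z
  else (z.1 : ℂ) + (1 - z.2) * wt w z + (t₀ - 1) * OmF S w z

/-- existence of Jacobi fields, positivity of the derivative of the kick -/
def GJac : Prop :=
  ∀ S : Sys, S.Ok → ∀ Y ∈ Icc S.a S.b, ∀ x : ℝ,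
    (∀ n : ℤ, ∀ ξ₀ η₀ : ℝ, ∃ ξ η : ℤ → ℝ, S.Jac Y x ξ η ∧ ξ n = ξ₀ ∧ η n = η₀) ∧
    (∀ q : ℝ,
      (∃ d e : ℝ, 0 < e ∧ HasDerivAt (fun q' => S.K q' (S.V Y q 1 : ℂ)) (d : ℂ) (q : ℂ) ∧
        HasDerivAt (fun w' => S.K (q : ℂ) w') (e : ℂ) (S.V Y q 1 : ℂ) ∧
        HasDerivAt (fun q' => S.Ki q' (S.V Y q 0 : ℂ)) ((-(d / e) : ℝ) : ℂ) (q : ℂ) ∧
        HasDerivAt (fun w' => S.Ki (q : ℂ) w') ((1 / e : ℝ) : ℂ) (S.V Y q 0 : ℂ)))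

/-- signs and bounds -/
def GSign : Prop :=
  ∀ S : Sys, S.Ok → ∃ δ₀ c₀ C₀ : ℝ, 0 < δ₀ ∧ 0 < c₀ ∧ 0 < C₀ ∧
    ∀ (δ ρ : ℝ) (w : ℂ → ℝ → ℂ) (c : ℂ), δ ≤ δ₀ → Tor S δ w ρ c →
    ∀ t₀ ∈ Icc (0:ℝ) 1, ∀ z : ℝ × ℝ, -1 ≤ z.2 → z.2 < 2 →
      (z.2 ≤ t₀ → c₀ * (t₀ - z.2) * (wt w z).im ≤ (XF S w t₀ z).im) ∧
      (t₀ ≤ z.2 → (XF S w t₀ z).im ≤ -(c₀ * (z.2 - t₀) * (wt w z).im)) ∧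
      |(OmF S w z).im| ≤ C₀ * (wt w z).im ∧ ‖OmF S w z‖ ≤ C₀ ∧
      ‖XF S w t₀ z - z.1‖ ≤ C₀ * |z.2 - t₀|

/-- the functions `OmF`, `XF` are torus-holomorphic -/
def GTHX : Prop :=
  ∀ S : Sys, S.Ok → ∀ (δ ρ : ℝ) (w : ℂ → ℝ → ℂ) (c : ℂ), δ < S.r → Tor S δ w ρ c →
    ∀ t₀ ∈ Icc (0:ℝ) 1, ∀ z₁ : ℝ × ℝ, -1 < z₁.2 → z₁.2 < 2 →
      TH w (OmF S w) z₁ ∧ TH w (XF S w t₀) z₁ ∧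
      (z₁.2 = t₀ → ∀ᶠ z in 𝓝 z₁, XF S w t₀ z = (z₁.1 : ℂ) + chi w z₁ z ∧
        OmF S w z = w ((z₁.1 : ℂ) + chi w z₁ z) t₀)

/-- the slope bound -/
def GSlope : Prop :=
  ∀ S : Sys, S.Ok → ∃ δ₀ C : ℝ, 0 < δ₀ ∧ 0 < C ∧
    ∀ (δ ρ : ℝ) (w : ℂ → ℝ → ℂ) (c : ℂ), δ ≤ δ₀ → Tor S δ w ρ c →
    ∀ x : ℝ, ∀ t ∈ Icc (0:ℝ) 1, ‖dz w (x : ℂ) t‖ * (w (x : ℂ) t).im ^ 2 ≤ C

/-- momentum and energy of a torus -/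
def GTorP : Prop :=
  ∀ S : Sys, S.Ok → ∃ k0 M : ℝ, 0 < k0 ∧ 0 < M ∧
    ∀ (δ ρ : ℝ) (w : ℂ → ℝ → ℂ) (c : ℂ), Tor S δ w ρ c →
      SH (fun z t => S.p t z (w z t)) ρ ∧ SH (fun z t => S.En t z (w z t)) ρ ∧
      (∀ z ∈ Str ρ, S.p 1 z (w z 1) = S.p 0 z (w z 0)) ∧
      (∀ z ∈ Str ρ, ∀ t ∈ Icc (0:ℝ) 1,
        HasDerivWithinAt (fun s => S.p s z (w z s))
          (-dz (fun z t => S.En t z (w z t)) z t) (Icc (0:ℝ) 1) t) ∧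
      (∀ z ∈ Str ρ, ∀ t ∈ Icc (0:ℝ) 1,
        HasDerivWithinAt (fun s => w z s) (-(w z t * dz w z t)) (Icc (0:ℝ) 1) t) ∧
      (∀ t ∈ Icc (0:ℝ) 1, ∫ x in (0:ℝ)..1, S.p t (x : ℂ) (w (x : ℂ) t) = c) ∧
      (∀ x : ℝ, ∀ t ∈ Icc (0:ℝ) 1,
        k0 * (w (x : ℂ) t).im ≤ (S.p t (x : ℂ) (w (x : ℂ) t)).im ∧
        (S.p t (x : ℂ) (w (x : ℂ) t)).im ≤ M * (w (x : ℂ) t).im ∧
        |(S.En t (x : ℂ) (w (x : ℂ) t)).im| ≤ M * (w (x : ℂ) t).im ∧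
        ‖S.p t (x : ℂ) (w (x : ℂ) t)‖ ≤ M ∧ ‖S.En t (x : ℂ) (w (x : ℂ) t)‖ ≤ M ∧
        ‖w (x : ℂ) t‖ ≤ M)

/-- the height is uniformly Hoelder and controlled by `Im c` -/
def GHeight : Prop :=
  ∀ S : Sys, S.Ok → ∃ δ₀ C : ℝ, 0 < δ₀ ∧ 0 < C ∧
    ∀ (δ ρ : ℝ) (w : ℂ → ℝ → ℂ) (c : ℂ), δ ≤ δ₀ → Tor S δ w ρ c →
    (∀ x x' : ℝ, ∀ t ∈ Icc (0:ℝ) 1, ∀ t' ∈ Icc (0:ℝ) 1,
      |(w (x : ℂ) t).im ^ 3 - (w (x' : ℂ) t').im ^ 3| ≤ C * (|x - x'| + |t - t'|)) ∧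
    (∀ x : ℝ, ∀ t ∈ Icc (0:ℝ) 1, (w (x : ℂ) t).im ^ 4 ≤ C * c.im) ∧ 0 < c.im

/-- flux through a straight segment -/
def GFlux : Prop :=
  ∀ S : Sys, S.Ok → ∀ B : ℝ, ∃ C : ℝ, 0 < C ∧
    ∀ (δ ρ : ℝ) (w : ℂ → ℝ → ℂ) (c : ℂ), Tor S δ w ρ c →
    ∃ e : ℝ, |e| ≤ C ∧ ∀ x v : ℝ, |v| ≤ B →
      |(∫ y in x..(x + v), (S.p 0 (y : ℂ) (w (y : ℂ) 0)).im) - e|
        ≤ C * ∫ s in (0:ℝ)..1, (w ((x + s * v : ℝ) : ℂ) s).im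

/-! ### Strands -/

/-- one period of the complexified dynamics -/
noncomputable def FF (S : Sys) (z : ℂ × ℂ) : ℂ × ℂ := (z.1 + z.2, S.K (z.1 + z.2) z.2)

/-- inverse -/
noncomputable def FFi (S : Sys) (z : ℂ × ℂ) : ℂ × ℂ := (z.1 - S.Ki z.1 z.2, S.Ki z.1 z.2)

/-- data of the real world line in the layer `n` -/
noncomputable def dat (S : Sys) (Y x : ℝ) (n : ℤ) : ℂ × ℂ :=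
  ((S.orb Y x n : ℝ), (S.vel Y x n : ℝ))

/-- local holomorphic functions near a real world line: position at the times `T`, `-T` -/
structure Loc (S : Sys) (Y x : ℝ) (T : ℤ) (R c : ℝ) (Ap Am : ℤ → ℂ × ℂ → ℂ) : Prop where
  hR : 0 < R
  hc : 0 < c
  holp : ∀ n : ℤ, -T ≤ n → n < T → DifferentiableOn ℂ (Ap n) (Metric.ball (dat S Y x n) R)
  holm : ∀ n : ℤ, -T ≤ n → n < T → DifferentiableOn ℂ (Am n) (Metric.ball (dat S Y x n) R)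
  holF : ∀ n : ℤ, -T ≤ n → n < T → DifferentiableOn ℂ (FF S) (Metric.ball (dat S Y x n) R)
  holFi : ∀ n : ℤ, -T ≤ n → n < T → DifferentiableOn ℂ (FFi S) (Metric.ball (dat S Y x n) R)
  inv : ∀ n : ℤ, -T ≤ n → n < T → ∀ z ∈ Metric.ball (dat S Y x n) R,
    FFi S (FF S z) = z ∧ FF S (FFi S z) = z
  Fdat : ∀ n : ℤ, FF S (dat S Y x n) = dat S Y x (n + 1)
  top : ∀ z ∈ Metric.ball (dat S Y x (T - 1)) R, Ap (T - 1) z = z.1 + z.2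
  bot : ∀ z ∈ Metric.ball (dat S Y x (-T)) R, Am (-T) z = z.1
  step : ∀ n : ℤ, -T ≤ n → n + 1 < T → ∀ z ∈ Metric.ball (dat S Y x n) R,
    FF S z ∈ Metric.ball (dat S Y x (n + 1)) R → Ap (n + 1) (FF S z) = Ap n z ∧
      Am (n + 1) (FF S z) = Am n z
  anti : ∀ n : ℤ, -T ≤ n → n < T → ∀ z ∈ Metric.ball (dat S Y x n) R,
    c * ‖z - dat S Y x n‖ ≤ max ‖Ap n z - (S.orb Y x T : ℝ)‖ ‖Am n z - (S.orb Y x (-T) : ℝ)‖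
  lip : ∀ n : ℤ, -T ≤ n → n < T → ∀ z ∈ Metric.ball (dat S Y x n) R,
    c * max ‖Ap n z - (S.orb Y x T : ℝ)‖ ‖Am n z - (S.orb Y x (-T) : ℝ)‖ ≤ ‖z - dat S Y x n‖
  sgnp : ∀ n : ℤ, -T ≤ n → n < T → ∀ (q s : ℝ) (v : ℂ), s ∈ Icc (0:ℝ) 1 → 0 < v.im →
    ((q : ℂ) - s * v, v) ∈ Metric.ball (dat S Y x n) R → ¬ (n = T - 1 ∧ s = 1) →
    0 < (Ap n ((q : ℂ) - s * v, v)).im
  sgnm : ∀ n : ℤ, -T ≤ n → n < T → ∀ (q s : ℝ) (v : ℂ), s ∈ Icc (0:ℝ) 1 → 0 < v.im →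
    ((q : ℂ) - s * v, v) ∈ Metric.ball (dat S Y x n) R → ¬ (n = -T ∧ s = 0) →
    (Am n ((q : ℂ) - s * v, v)).im < 0

/-- existence of the local functions -/
def GLoc : Prop :=
  ∀ S : Sys, S.Ok → ∀ Y ∈ Icc S.a S.b, ∀ (x : ℝ) (T : ℤ), 1 ≤ T →
    ∃ (R c : ℝ) (Ap Am : ℤ → ℂ × ℂ → ℂ), Loc S Y x T R c Ap Am

/-- the torus at the space-time point `z` is `r`-close to the real world line -/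
def Near (S : Sys) (w : ℂ → ℝ → ℂ) (Y x r : ℝ) (z : ℝ × ℝ) : Prop :=
  |z.1 - (S.orb Y x ⌊z.2⌋ + Int.fract z.2 * S.vel Y x ⌊z.2⌋)| < r ∧
    ‖wt w z - (S.vel Y x ⌊z.2⌋ : ℝ)‖ < r

/-- a strand of the torus close to the real world line, between the times `T₀ < T₁` -/
def Strand (S : Sys) (w : ℂ → ℝ → ℂ) (Y x r T₀ T₁ : ℝ) : Prop :=
  ∃ γ : ℝ → ℝ × ℝ, ContinuousOn γ (Icc 0 1) ∧ (γ 0).2 = T₀ ∧ (γ 1).2 = T₁ ∧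
    ∀ s ∈ Icc (0:ℝ) 1, T₀ ≤ (γ s).2 ∧ (γ s).2 ≤ T₁ ∧ Near S w Y x r (γ s)

/-- the strand lemma (half-line lemma) -/
def GStrand : Prop :=
  ∀ S : Sys, S.Ok → ∀ Y ∈ Icc S.a S.b, ∀ (x : ℝ) (T : ℤ) (r : ℝ), 2 ≤ T → 0 < r →
    ∃ ε : ℝ, 0 < ε ∧ ∀ (δ ρ : ℝ) (w : ℂ → ℝ → ℂ) (c : ℂ), δ < S.r → Tor S δ w ρ c →
    ∀ q : ℝ, ∀ t ∈ Icc (0:ℝ) 1, |q - (x + t * S.V Y x 0)| < ε →
      ‖w (q : ℂ) t - (S.V Y x 0 : ℝ)‖ < ε →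
      Strand S w Y x r 1 T ∨ Strand S w Y x r (-T) 0

/-- a torus cannot come close to three different leaves -/
def GThree : Prop :=
  ∀ S : Sys, S.Ok → ∀ Y₁ ∈ Icc S.a S.b, ∀ Y₂ ∈ Icc S.a S.b, ∀ Y₃ ∈ Icc S.a S.b,
    Y₁ < Y₂ → Y₂ < Y₃ → ∃ ε : ℝ, 0 < ε ∧
    ∀ (δ ρ : ℝ) (w : ℂ → ℝ → ℂ) (c : ℂ), δ < S.r → Tor S δ w ρ c →
    ∀ x₁ x₂ x₃ : ℝ, ∀ t₁ ∈ Icc (0:ℝ) 1, ∀ t₂ ∈ Icc (0:ℝ) 1, ∀ t₃ ∈ Icc (0:ℝ) 1,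
      ¬ (‖w (x₁ : ℂ) t₁ - (S.V Y₁ x₁ t₁ : ℝ)‖ < ε ∧ ‖w (x₂ : ℂ) t₂ - (S.V Y₂ x₂ t₂ : ℝ)‖ < ε ∧
        ‖w (x₃ : ℂ) t₃ - (S.V Y₃ x₃ t₃ : ℝ)‖ < ε)

/-- thin tori are close to one leaf -/
def GThin : Prop :=
  ∀ S : Sys, S.Ok → ∃ δ₀ : ℝ, 0 < δ₀ ∧ ∀ ε : ℝ, 0 < ε → ∃ η : ℝ, 0 < η ∧
    ∀ (δ ρ : ℝ) (w : ℂ → ℝ → ℂ) (c : ℂ), δ ≤ δ₀ → Tor S δ w ρ c → c.im ≤ η →
    ∀ Y ∈ Icc S.a S.b, S.mn Y = c.re → ∀ x : ℝ, ∀ t ∈ Icc (0:ℝ) 1,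
      ‖w (x : ℂ) t - (S.V Y x t : ℝ)‖ ≤ ε

/-! ### Positivity -/

/-- no sequence of tori with `Im c ≥ η` comes close to a world line on an aperiodic leaf -/
def GApe : Prop :=
  ∀ S : Sys, S.Ok → ∃ δ₀ : ℝ, 0 < δ₀ ∧ ∀ Y ∈ Icc S.a S.b,
    (∀ (n : ℕ) (k : ℤ) (x : ℝ), (S.g Y)^[n + 1] x ≠ x + k) → ∀ η x : ℝ, 0 < η →
    ∀ (δ : ℝ) (ρ : ℕ → ℝ) (w : ℕ → ℂ → ℝ → ℂ) (c : ℕ → ℂ), δ ≤ δ₀ →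
      (∀ k, Tor S δ (w k) (ρ k) (c k)) → (∀ k, η ≤ (c k).im) →
    ∀ (q t : ℕ → ℝ), (∀ k, t k ∈ Icc (0:ℝ) 1) →
      Tendsto (fun k => q k - t k * S.V Y x 0) atTop (𝓝 x) →
      Tendsto (fun k => w k (q k : ℂ) (t k)) atTop (𝓝 ((S.V Y x 0 : ℝ) : ℂ)) → False

/-- Harnack type inequality along a periodic leaf -/
def GGron : Prop :=
  ∀ S : Sys, S.Ok → ∃ δ₀ : ℝ, 0 < δ₀ ∧ ∀ Y ∈ Icc S.a S.b, ∀ (N : ℕ) (m : ℤ),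
    (∀ x : ℝ, (S.g Y)^[N + 1] x = x + m) → AnalyticOnNhd ℝ (fun x : ℝ => S.V Y x 0) univ →
    ∃ C : ℝ, 0 < C ∧ ∀ (δ ρ : ℝ) (w : ℂ → ℝ → ℂ) (c : ℂ), δ ≤ δ₀ → Tor S δ w ρ c →
    ∀ x : ℝ, c.im ≤ C * ∑ n ∈ Finset.range (N + 1),
      ∫ s in (0:ℝ)..1, (w ((S.orb Y x n + s * S.vel Y x n : ℝ) : ℂ) s).im

/-- positivity -/
def GPos : Prop :=
  ∀ S : Sys, S.Ok → ∃ δ₀ : ℝ, 0 < δ₀ ∧ ∀ η δ : ℝ, 0 < η → δ ≤ δ₀ → ∃ h : ℝ, 0 < h ∧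
    ∀ (ρ : ℝ) (w : ℂ → ℝ → ℂ) (c : ℂ), Tor S δ w ρ c → η ≤ c.im →
    ∀ x : ℝ, ∀ t ∈ Icc (0:ℝ) 1, h ≤ (w (x : ℂ) t).im

/-! ### Strips and compactness -/

/-- `XF` is bi-Lipschitz on a small box -/
def GBiLip : Prop :=
  ∀ S : Sys, S.Ok → ∃ δ₀ a : ℝ, 0 < δ₀ ∧ 0 < a ∧ a < 1 / 2 ∧
    ∀ (δ ρ : ℝ) (w : ℂ → ℝ → ℂ) (c : ℂ), δ ≤ δ₀ → Tor S δ w ρ c →
    ∀ h : ℝ, 0 < h → h ≤ 1 → (∀ x : ℝ, ∀ t ∈ Icc (0:ℝ) 1, h ≤ (w (x : ℂ) t).im) →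
    ∀ t₀ ∈ Icc (0:ℝ) 1, ∀ (x : ℝ) (z z' : ℝ × ℝ), |z.1 - x| ≤ a * h ^ 3 →
      |z.2 - t₀| ≤ a * h ^ 3 → |z'.1 - x| ≤ a * h ^ 3 → |z'.2 - t₀| ≤ a * h ^ 3 →
      a * h * ‖z - z'‖ ≤ ‖XF S w t₀ z - XF S w t₀ z'‖ ∧
      a * h ^ 2 * ‖OmF S w z - OmF S w z'‖ ≤ ‖z - z'‖

/-- uniform strips -/
def GStrip : Prop :=
  ∀ S : Sys, S.Ok → ∃ (δ₀ a : ℝ) (k : ℕ), 0 < δ₀ ∧ 0 < a ∧ 1 ≤ k ∧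
    ∀ (δ ρ : ℝ) (w : ℂ → ℝ → ℂ) (c : ℂ), δ ≤ δ₀ → Tor S δ w ρ c →
    ∀ h : ℝ, 0 < h → h ≤ 1 → (∀ x : ℝ, ∀ t ∈ Icc (0:ℝ) 1, h ≤ (w (x : ℂ) t).im) →
    ∃ w' : ℂ → ℝ → ℂ, Tor S δ w' (a * h ^ k) c ∧
      ∀ x : ℝ, ∀ t ∈ Icc (0:ℝ) 1, w' (x : ℂ) t = w (x : ℂ) t

/-- compactness -/
def GComp : Prop :=
  ∀ S : Sys, S.Ok → ∃ δ₀ : ℝ, 0 < δ₀ ∧ ∀ (δ h : ℝ) (ρ : ℕ → ℝ) (w : ℕ → ℂ → ℝ → ℂ)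
    (c : ℕ → ℂ) (c' : ℂ), δ ≤ δ₀ → 0 < h → (∀ k, Tor S δ (w k) (ρ k) (c k)) →
    (∀ k, ∀ x : ℝ, ∀ t ∈ Icc (0:ℝ) 1, h ≤ (w k (x : ℂ) t).im) → Tendsto c atTop (𝓝 c') →
    ∃ (w' : ℂ → ℝ → ℂ) (ρ' : ℝ) (φ : ℕ → ℕ), StrictMono φ ∧ Tor S δ w' ρ' c' ∧
      TendstoUniformlyOn (fun k (z : ℝ × ℝ) => w (φ k) (z.1 : ℂ) z.2)
        (fun z : ℝ × ℝ => w' (z.1 : ℂ) z.2) atTop (univ ×ˢ Icc (0:ℝ) 1) ∧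
      (∀ x : ℝ, ∀ t ∈ Icc (0:ℝ) 1, h ≤ (w' (x : ℂ) t).im)

end Pool.Agent.Helper76.FT
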