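import Pool.Agent.Helper76.FT.Defs

/-!
# Part B: self-contained lemmas of real and complex analysis

Each `def ... : Prop` is a lemma to be proved elsewhere.
-/

set_option autoImplicit false

namespace Pool.Agent.Helper76.FT

open Complex Set Filter Topology

/-- two paths which cross a horizontal strip and change their order must meet -/
def GCross : Prop :=
  ∀ (γ₁ γ₂ : ℝ → ℂ) (T₀ T₁ : ℝ), T₀ < T₁ → ContinuousOn γ₁ (Icc 0 1) → ContinuousOn γ₂ (Icc 0 1) →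
    (∀ s ∈ Icc (0:ℝ) 1, T₀ ≤ (γ₁ s).im ∧ (γ₁ s).im ≤ T₁) →
    (∀ s ∈ Icc (0:ℝ) 1, T₀ ≤ (γ₂ s).im ∧ (γ₂ s).im ≤ T₁) →
    (γ₁ 0).im = T₀ → (γ₁ 1).im = T₁ → (γ₂ 0).im = T₀ → (γ₂ 1).im = T₁ →
    (∀ s ∈ Icc (0:ℝ) 1, ∀ s' ∈ Icc (0:ℝ) 1, (γ₁ s).im = T₀ → (γ₂ s').im = T₀ →
      (γ₁ s).re < (γ₂ s').re) →
    (∀ s ∈ Icc (0:ℝ) 1, ∀ s' ∈ Icc (0:ℝ) 1, (γ₁ s).im = T₁ → (γ₂ s').im = T₁ →
      (γ₂ s').re < (γ₁ s).re) →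
    ∃ s ∈ Icc (0:ℝ) 1, ∃ s' ∈ Icc (0:ℝ) 1, γ₁ s = γ₂ s'

/-- minimum principle for functions in the plane with the open mapping alternative -/
def GMinP : Prop :=
  ∀ (C : Set (ℝ × ℝ)) (f : ℝ × ℝ → ℂ), IsOpen C → Bornology.IsBounded C →
    ContinuousOn f (closure C) →
    (∀ z ∈ C, (∀ᶠ y in 𝓝 z, f y = f z) ∨ 𝓝 (f z) ≤ Filter.map f (𝓝 z)) →
    ∀ z₀ ∈ C, ∃ z' ∈ frontier C, (f z').re ≤ (f z₀).re

/-- a monotone flux function over an aperiodic circle homeomorphism -/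
def GGap : Prop :=
  ∀ (g : ℝ → ℝ) (M : Set ℝ) (J : ℝ → ℝ) (m e : ℝ), StrictMono g → Continuous g →
    (∀ x, g (x + 1) = g x + 1) → (∀ (n : ℕ) (k : ℤ) (x : ℝ), g^[n + 1] x ≠ x + k) →
    IsClosed M → M.Nonempty → (∀ x, x ∈ M ↔ x + 1 ∈ M) → (∀ x, x ∈ M ↔ g x ∈ M) →
    Monotone J → (∀ x, J (x + 1) = J x + m) → (∀ x ∈ M, J (g x) = J x + e) →
    (∀ x ∈ M, HasDerivAt J 0 x) → m = 0

/-- typically real functions: linear lower bound at a real point -/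
def GTyp : Prop :=
  ∀ (f : ℂ → ℂ) (x0 R : ℝ), 0 < R → DifferentiableOn ℂ f (Metric.ball (x0 : ℂ) R) →
    (∀ x : ℝ, |x - x0| < R → (f x).im = 0) →
    (∀ z ∈ Metric.ball (x0 : ℂ) R, 0 < z.im → 0 < (f z).im) →
    ∀ y0 : ℝ, 0 < y0 → y0 < R → ∀ y : ℝ, 0 < y → y ≤ R / 8 →
      (f (x0 + y0 * I)).im * (1 - y0 / R)^2 / (2 * y0) * y ≤ (f (x0 + y * I)).im

/-- open upper rectangle -/
def Rec (c1 c2 η : ℝ) : Set ℂ := {c | c1 < c.re ∧ c.re < c2 ∧ 0 < c.im ∧ c.im < η}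

/-- open symmetric rectangle -/
def Rec2 (c1 c2 η : ℝ) : Set ℂ := {c | c1 < c.re ∧ c.re < c2 ∧ |c.im| < η}

/-- Schwarz reflection -/
def GRefl : Prop :=
  ∀ (f : ℂ → ℂ) (u : ℝ → ℝ) (c1 c2 η : ℝ), c1 < c2 → 0 < η →
    DifferentiableOn ℂ f (Rec c1 c2 η) →
    (∀ x ∈ Ioo c1 c2, Tendsto f (𝓝[Rec c1 c2 η] (x : ℂ)) (𝓝 (u x : ℂ))) →
    ∃ F : ℂ → ℂ, DifferentiableOn ℂ F (Rec2 c1 c2 η) ∧ (∀ c ∈ Rec c1 c2 η, F c = f c) ∧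
      (∀ x ∈ Ioo c1 c2, F x = u x) ∧
      (∀ c ∈ Rec2 c1 c2 η, F ((starRingEnd ℂ) c) = (starRingEnd ℂ) (F c))

/-- a smooth function with factorial bounds is analytic -/
def GFac : Prop :=
  ∀ (u : ℝ → ℂ) (A : ℕ → ℝ → ℂ) (C : ℝ), A 0 = u → (∀ n x, HasDerivAt (A n) (A (n + 1) x) x) →
    (∀ n x, ‖A n x‖ ≤ C ^ (n + 1) * n.factorial) → AnalyticOnNhd ℝ u univ

/-- weighted Cauchy integral: a function holomorphic in the parameter `c` in a full disc, with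
radius of convergence in `z` at least `a * |Im c|^k`, is analytic in `z` at the centre -/
def GWeight : Prop :=
  ∀ (U : ℂ → ℂ → ℂ) (x0 r a M : ℝ) (k : ℕ), 0 < r → 0 < a → 1 ≤ k →
    -- holomorphic in `c` for real `z`
    (∀ x : ℝ, DifferentiableOn ℂ (fun c => U (x : ℂ) c) (Metric.ball (x0 : ℂ) (2 * r))) →
    (∀ x : ℝ, ∀ c ∈ Metric.ball (x0 : ℂ) (2 * r), ‖U (x : ℂ) c‖ ≤ M) →
    -- holomorphic in `z` for non-real `c`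
    (∀ c ∈ Metric.ball (x0 : ℂ) (2 * r), c.im ≠ 0 →
      DifferentiableOn ℂ (fun z => U z c) (Str (a * |c.im| ^ k)) ∧
      ∀ z ∈ Str (a * |c.im| ^ k), ‖U z c‖ ≤ M) →
    ContinuousOn (fun q : ℂ × ℂ => U q.1 q.2)
      {q | q.2 ∈ Metric.ball (x0 : ℂ) (2 * r) ∧ q.2.im ≠ 0 ∧ |q.1.im| < a * |q.2.im| ^ k} →
    AnalyticOnNhd ℝ (fun x : ℝ => U (x : ℂ) (x0 : ℂ)) univ

/-- the final step: a family over the upper rectangle with boundary values `u` -/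
def GFin : Prop :=
  ∀ (U : ℂ → ℂ → ℂ) (u : ℝ → ℝ → ℝ) (c1 c2 η a M : ℝ) (k : ℕ), c1 < c2 → 0 < η → 0 < a →
    1 ≤ k →
    (∀ x : ℝ, DifferentiableOn ℂ (fun c => U (x : ℂ) c) (Rec c1 c2 η)) →
    (∀ x : ℝ, ∀ c ∈ Rec c1 c2 η, ‖U (x : ℂ) c‖ ≤ M ∧ 0 < (U (x : ℂ) c).im ∧
      U ((x : ℂ) + 1) c = U (x : ℂ) c) →
    (∀ x : ℝ, ∀ c' ∈ Ioo c1 c2,
      Tendsto (fun c => U (x : ℂ) c) (𝓝[Rec c1 c2 η] (c' : ℂ)) (𝓝 (u c' x : ℂ))) →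
    -- `Im U` is bounded below away from the real axis
    (∀ η' : ℝ, 0 < η' → ∃ h : ℝ, 0 < h ∧ ∀ c ∈ Rec c1 c2 η, η' ≤ c.im → ∀ x : ℝ,
      h ≤ (U (x : ℂ) c).im) →
    -- if `Im U ≥ h` on the real line then `U · c` is holomorphic in a strip of width `a h^k`
    (∀ h : ℝ, 0 < h → h ≤ 1 → ∀ c ∈ Rec c1 c2 η, (∀ x : ℝ, h ≤ (U (x : ℂ) c).im) →
      DifferentiableOn ℂ (fun z => U z c) (Str (a * h ^ k)) ∧
      ∀ z ∈ Str (a * h ^ k), ‖U z c‖ ≤ M) →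
    (∀ h : ℝ, 0 < h → h ≤ 1 → ContinuousOn (fun q : ℂ × ℂ => U q.1 q.2)
      {q | q.2 ∈ Rec c1 c2 η ∧ (∀ x : ℝ, h ≤ (U (x : ℂ) q.2).im) ∧ |q.1.im| < a * h ^ k}) →
    ∀ c ∈ Ioo c1 c2, AnalyticOnNhd ℝ (u c) univ

end Pool.Agent.Helper76.FT
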