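import Pool.Agent.Helper76.FT.GoalsA
import Pool.Agent.Helper76.FT.GoalsB
import Pool.Agent.Helper76.FT.GoalsG

/-!
# Part C: the Hamiltonian form, existence, the family, the main theorem for a system

Each `def ... : Prop` is a lemma to be proved elsewhere.
-/

set_option autoImplicit false

namespace Pool.Agent.Helper76.FT

open Complex Set Filter Topology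

/-- complex neighbourhood of the region in the coordinates position, momentum -/
def Pb (S : Sys) (t r : ℝ) : Set (ℂ × ℂ) :=
  {z | ∃ y ∈ S.Reg t, ‖z.1 - (y.1 : ℂ)‖ < r ∧ ‖z.2 - S.p t (y.1 : ℂ) (y.2 : ℂ)‖ < r}

/-- `W t q p` is the velocity as a function of the momentum -/
structure WF (S : Sys) (W : ℝ → ℂ → ℂ → ℂ) (r₂ r₃ M k₀ : ℝ) : Prop where
  h2 : 0 < r₂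
  h3 : 0 < r₃
  h3' : r₃ ≤ S.r
  hk : 0 < k₀
  opn : ∀ t : ℝ, IsOpen (Pb S t r₂)
  cont : ContinuousOn (fun y : ℝ × (ℂ × ℂ) => W y.1 y.2.1 y.2.2)
    {y | y.1 ∈ Icc (0:ℝ) 1 ∧ y.2 ∈ Pb S y.1 r₂}
  hol : ∀ t ∈ Icc (0:ℝ) 1, DifferentiableOn ℂ (fun z : ℂ × ℂ => W t z.1 z.2) (Pb S t r₂)
  pW : ∀ t ∈ Icc (0:ℝ) 1, ∀ z ∈ Pb S t r₂, (z.1, W t z.1 z.2) ∈ S.Nb t S.r ∧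
    S.p t z.1 (W t z.1 z.2) = z.2
  Wp : ∀ t ∈ Icc (0:ℝ) 1, ∀ z ∈ S.Nb t r₃, (z.1, S.p t z.1 z.2) ∈ Pb S t r₂ ∧
    W t z.1 (S.p t z.1 z.2) = z.2
  bd : ∀ t ∈ Icc (0:ℝ) 1, ∀ z ∈ Pb S t r₂, ‖W t z.1 z.2‖ ≤ M ∧
    ‖deriv (fun y => W t z.1 y) z.2‖ ≤ M ∧ k₀ ≤ (deriv (fun y => W t z.1 y) z.2).re
  per : ∀ t ∈ Icc (0:ℝ) 1, ∀ z ∈ Pb S t r₂, (z.1 + 1, z.2) ∈ Pb S t r₂ ∧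
    W t (z.1 + 1) z.2 = W t z.1 z.2
  sym : ∀ t ∈ Icc (0:ℝ) 1, ∀ z ∈ Pb S t r₂,
    ((starRingEnd ℂ) z.1, (starRingEnd ℂ) z.2) ∈ Pb S t r₂ ∧
    W t ((starRingEnd ℂ) z.1) ((starRingEnd ℂ) z.2) = (starRingEnd ℂ) (W t z.1 z.2)
  star : ∀ t ∈ Icc (0:ℝ) 1, ∀ z ∈ Pb S t r₂, ∀ s ∈ Icc (0:ℝ) 1, (z.1, s * z.2) ∈ Pb S t r₂
  zero : ∀ t ∈ Icc (0:ℝ) 1, ∀ z ∈ Pb S t r₂, W t z.1 0 = 0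

/-- existence of the inverse function -/
def GW : Prop :=
  ∀ S : Sys, S.Ok → ∃ (W : ℝ → ℂ → ℂ → ℂ) (r₂ r₃ M k₀ : ℝ), WF S W r₂ r₃ M k₀

/-- the Hamiltonian -/
noncomputable def Ef (W : ℝ → ℂ → ℂ → ℂ) (t : ℝ) (q y : ℂ) : ℂ :=
  y * ∫ s in (0:ℝ)..1, W t q (s * y)

/-- properties of the Hamiltonian -/
def GE : Prop :=
  ∀ (S : Sys), S.Ok → ∀ (W : ℝ → ℂ → ℂ → ℂ) (r₂ r₃ M k₀ : ℝ), WF S W r₂ r₃ M k₀ →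
    ContinuousOn (fun y : ℝ × (ℂ × ℂ) => Ef W y.1 y.2.1 y.2.2)
      {y | y.1 ∈ Icc (0:ℝ) 1 ∧ y.2 ∈ Pb S y.1 r₂} ∧
    (∃ M' : ℝ, ∀ t ∈ Icc (0:ℝ) 1, ∀ z ∈ Pb S t r₂, ‖Ef W t z.1 z.2‖ ≤ M') ∧
    ∀ t ∈ Icc (0:ℝ) 1,
      DifferentiableOn ℂ (fun z : ℂ × ℂ => Ef W t z.1 z.2) (Pb S t r₂) ∧
      (∀ z ∈ Pb S t r₂, HasDerivAt (fun y => Ef W t z.1 y) (W t z.1 z.2) z.2 ∧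
        Ef W t (z.1 + 1) z.2 = Ef W t z.1 z.2) ∧
      (∀ z ∈ S.Nb t r₃, Ef W t z.1 (S.p t z.1 z.2) = S.En t z.1 z.2)

/-- solution of the Hamilton-Jacobi equation `φ_t + E(t, z, c + φ_z) = e` -/
structure HSol (S : Sys) (W : ℝ → ℂ → ℂ → ℂ) (r₂ : ℝ) (φ : ℂ → ℝ → ℂ) (e c : ℂ) (ρ : ℝ) :
    Prop where
  sh : SH φ ρ
  close : ∀ z ∈ Str ρ, φ z 1 = φ z 0
  dom : ∀ z ∈ Str ρ, ∀ t ∈ Icc (0:ℝ) 1, (z, c + dz φ z t) ∈ Pb S t r₂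
  eq : ∀ z ∈ Str ρ, ∀ t ∈ Icc (0:ℝ) 1,
    HasDerivWithinAt (fun s => φ z s) (e - Ef W t z (c + dz φ z t)) (Icc (0:ℝ) 1) t

/-- a torus on a smaller strip, with a smaller neighbourhood -/
def GShrink : Prop :=
  ∀ S : Sys, S.Ok → ∀ (r₃ δ ρ : ℝ) (w : ℂ → ℝ → ℂ) (c : ℂ), δ < r₃ → Tor S δ w ρ c →
    (∀ ρ' : ℝ, 0 < ρ' → ρ' ≤ ρ → Tor S δ w ρ' c) ∧
    ∃ ρ' : ℝ, 0 < ρ' ∧ ρ' ≤ ρ ∧ ∀ z ∈ Str ρ', ∀ t ∈ Icc (0:ℝ) 1, (z, w z t) ∈ S.Nb t r₃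

/-- from a torus to a solution of the Hamilton-Jacobi equation -/
def GToPhi : Prop :=
  ∀ (S : Sys), S.Ok → ∀ (W : ℝ → ℂ → ℂ → ℂ) (r₂ r₃ M k₀ : ℝ), WF S W r₂ r₃ M k₀ →
    ∀ (δ ρ : ℝ) (w : ℂ → ℝ → ℂ) (c : ℂ), Tor S δ w ρ c →
    (∀ z ∈ Str ρ, ∀ t ∈ Icc (0:ℝ) 1, (z, w z t) ∈ S.Nb t r₃) →
    ∃ (φ : ℂ → ℝ → ℂ) (e : ℂ), HSol S W r₂ φ e c ρ ∧
      ∀ z ∈ Str ρ, ∀ t ∈ Icc (0:ℝ) 1,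
        c + dz φ z t = S.p t z (w z t) ∧ W t z (c + dz φ z t) = w z t

/-- from a solution of the Hamilton-Jacobi equation to a torus -/
def GFromPhi : Prop :=
  ∀ (S : Sys), S.Ok → ∀ (W : ℝ → ℂ → ℂ → ℂ) (r₂ r₃ M k₀ : ℝ), WF S W r₂ r₃ M k₀ →
    ∃ δ₀ : ℝ, 0 < δ₀ ∧
    ∀ (δ ρ : ℝ) (φ : ℂ → ℝ → ℂ) (e c : ℂ), δ ≤ δ₀ → 0 < ρ → HSol S W r₂ φ e c ρ →
    (∀ x : ℝ, ∀ t ∈ Icc (0:ℝ) 1, 0 < (W t (x : ℂ) (c + dz φ (x : ℂ) t)).im ∧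
      (W t (x : ℂ) (c + dz φ (x : ℂ) t)).im ≤ δ ∧
      (x, (W t (x : ℂ) (c + dz φ (x : ℂ) t)).re) ∈ S.Reg t) →
    ∃ ρ' : ℝ, 0 < ρ' ∧ ρ' ≤ ρ ∧ Tor S δ (fun z t => W t z (c + dz φ z t)) ρ' c

/-- a torus of given class is unique -/
def GUniqT : Prop :=
  ∀ S : Sys, S.Ok → ∃ δ₀ : ℝ, 0 < δ₀ ∧
    ∀ (δ ρ ρ' : ℝ) (w w' : ℂ → ℝ → ℂ) (c : ℂ), δ ≤ δ₀ → Tor S δ w ρ c → Tor S δ w' ρ' c →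
    ∀ x : ℝ, ∀ t ∈ Icc (0:ℝ) 1, w (x : ℂ) t = w' (x : ℂ) t

/-- strict torus -/
def STor (S : Sys) (δ : ℝ) (w : ℂ → ℝ → ℂ) (ρ : ℝ) (c : ℂ) : Prop :=
  Tor S δ w ρ c ∧ ∀ x : ℝ, ∀ t ∈ Icc (0:ℝ) 1, (w (x : ℂ) t).im < δ ∧
    S.V S.a x t < (w (x : ℂ) t).re ∧ (w (x : ℂ) t).re < S.V S.b x t

/-- the set of classes is open -/
def GOpen : Prop :=
  ∀ S : Sys, S.Ok → ∃ δ₀ : ℝ, 0 < δ₀ ∧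
    ∀ (δ ρ : ℝ) (w : ℂ → ℝ → ℂ) (c : ℂ), δ ≤ δ₀ → STor S δ w ρ c →
    ∃ ε : ℝ, 0 < ε ∧ ∀ c' : ℂ, ‖c' - c‖ < ε → ∃ (w' : ℂ → ℝ → ℂ) (ρ' : ℝ), STor S δ w' ρ' c'

/-- tori near the leaf at rest -/
def GStart : Prop :=
  ∀ S : Sys, S.Ok → ∀ δ η : ℝ, 0 < δ → δ < S.r → 0 < η →
    ∃ (ε : ℝ) (w : ℂ → ℝ → ℂ) (ρ : ℝ), 0 < ε ∧ ε < η ∧ STor S δ w ρ (ε * I)

/-- tori of small height are strictly inside -/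
def GRegion : Prop :=
  ∀ S : Sys, S.Ok → ∃ δ₀ : ℝ, 0 < δ₀ ∧ ∀ δ : ℝ, 0 < δ → δ ≤ δ₀ →
    ∀ Y₁ ∈ Ioo S.a S.b, ∀ Y₂ ∈ Ioo S.a S.b, Y₁ < Y₂ → ∃ η : ℝ, 0 < η ∧
    ∀ (ρ : ℝ) (w : ℂ → ℝ → ℂ) (c : ℂ), Tor S δ w ρ c → c.im ≤ η →
      S.mn Y₁ ≤ c.re → c.re ≤ S.mn Y₂ → STor S δ w ρ c

/-- existence over a rectangle -/
def GExist : Prop :=
  ∀ S : Sys, S.Ok → ∃ δ₀ : ℝ, 0 < δ₀ ∧ ∀ δ : ℝ, 0 < δ → δ ≤ δ₀ →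
    ∀ Y₁ ∈ Ioo S.a S.b, ∀ Y₂ ∈ Ioo S.a S.b, Y₁ < 0 → 0 < Y₂ → ∃ η : ℝ, 0 < η ∧
    ∀ c ∈ Rec (S.mn Y₁) (S.mn Y₂) η, ∃ (w : ℂ → ℝ → ℂ) (ρ : ℝ), STor S δ w ρ c

/-- holomorphic dependence on the class -/
def GHolo : Prop :=
  ∀ S : Sys, S.Ok → ∃ δ₀ : ℝ, 0 < δ₀ ∧ ∀ (δ : ℝ) (O : Set ℂ) (w : ℂ → ℂ → ℝ → ℂ), δ ≤ δ₀ →
    IsOpen O → (∀ c ∈ O, ∃ ρ : ℝ, Tor S δ (w c) ρ c) →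
    (∀ c₀ ∈ O, ∃ h : ℝ, 0 < h ∧ ∀ᶠ c in 𝓝 c₀, ∀ x : ℝ, ∀ t ∈ Icc (0:ℝ) 1,
      h ≤ (w c (x : ℂ) t).im) →
    ∀ x : ℝ, DifferentiableOn ℂ (fun c => S.p 0 (x : ℂ) (w c (x : ℂ) 0)) O

/-- a lower bound for the momentum at time `0` gives a lower bound for the height at all times -/
def GLow : Prop :=
  ∀ S : Sys, S.Ok → ∃ m : ℝ, 0 < m ∧ ∀ (δ ρ : ℝ) (w : ℂ → ℝ → ℂ) (c : ℂ), Tor S δ w ρ c →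
    ∀ h : ℝ, (∀ x : ℝ, h ≤ (S.p 0 (x : ℂ) (w (x : ℂ) 0)).im) →
    ∀ x : ℝ, ∀ t ∈ Icc (0:ℝ) 1, m * h ≤ (w (x : ℂ) t).im

/-- two constants theorem on strips -/
def GTL : Prop :=
  ∀ (ρ ρ' M ε : ℝ), 0 < ρ' → ρ' < ρ → 0 < M → 0 < ε → ∃ η : ℝ, 0 < η ∧
    ∀ f : ℂ → ℂ, DifferentiableOn ℂ f (Str ρ) → (∀ z ∈ Str ρ, ‖f z‖ ≤ M) →
      (∀ x : ℝ, ‖f (x : ℂ)‖ ≤ η) → ∀ z ∈ Str ρ', ‖f z‖ ≤ ε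

/-- joint continuity in the space variable and the class on a fixed strip -/
def GContS : Prop :=
  ∀ S : Sys, S.Ok → ∃ δ₀ : ℝ, 0 < δ₀ ∧ ∀ (δ ρ h : ℝ) (B : Set ℂ) (w : ℂ → ℂ → ℝ → ℂ), δ ≤ δ₀ →
    0 < ρ → 0 < h → (∀ c ∈ B, Tor S δ (w c) ρ c) →
    (∀ c ∈ B, ∀ x : ℝ, ∀ t ∈ Icc (0:ℝ) 1, h ≤ (w c (x : ℂ) t).im) →
    ContinuousOn (fun q : ℂ × ℂ => w q.2 q.1 0) (Str ρ ×ˢ B)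

/-- the family over a rectangle -/
def GFam : Prop :=
  ∀ S : Sys, S.Ok → ∀ Y₁ ∈ Ioo S.a S.b, ∀ Y₂ ∈ Ioo S.a S.b, Y₁ < 0 → 0 < Y₂ →
    ∃ (U : ℂ → ℂ → ℂ) (u : ℝ → ℝ → ℝ) (η a M : ℝ) (k : ℕ), 0 < η ∧ 0 < a ∧ 1 ≤ k ∧
    (∀ x : ℝ, DifferentiableOn ℂ (fun c => U (x : ℂ) c) (Rec (S.mn Y₁) (S.mn Y₂) η)) ∧
    (∀ x : ℝ, ∀ c ∈ Rec (S.mn Y₁) (S.mn Y₂) η, ‖U (x : ℂ) c‖ ≤ M ∧ 0 < (U (x : ℂ) c).im ∧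
      U ((x : ℂ) + 1) c = U (x : ℂ) c) ∧
    (∀ x : ℝ, ∀ c' ∈ Ioo (S.mn Y₁) (S.mn Y₂),
      Tendsto (fun c => U (x : ℂ) c) (𝓝[Rec (S.mn Y₁) (S.mn Y₂) η] (c' : ℂ)) (𝓝 (u c' x : ℂ))) ∧
    (∀ η' : ℝ, 0 < η' → ∃ h : ℝ, 0 < h ∧ ∀ c ∈ Rec (S.mn Y₁) (S.mn Y₂) η, η' ≤ c.im →
      ∀ x : ℝ, h ≤ (U (x : ℂ) c).im) ∧
    (∀ h : ℝ, 0 < h → h ≤ 1 → ∀ c ∈ Rec (S.mn Y₁) (S.mn Y₂) η,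
      (∀ x : ℝ, h ≤ (U (x : ℂ) c).im) →
      DifferentiableOn ℂ (fun z => U z c) (Str (a * h ^ k)) ∧
      ∀ z ∈ Str (a * h ^ k), ‖U z c‖ ≤ M) ∧
    (∀ h : ℝ, 0 < h → h ≤ 1 → ContinuousOn (fun q : ℂ × ℂ => U q.1 q.2)
      {q | q.2 ∈ Rec (S.mn Y₁) (S.mn Y₂) η ∧ (∀ x : ℝ, h ≤ (U (x : ℂ) q.2).im) ∧
        |q.1.im| < a * h ^ k}) ∧
    (∀ Y ∈ Ioo Y₁ Y₂, ∀ x : ℝ, u (S.mn Y) x = (S.p 0 (x : ℂ) (S.V Y x 0 : ℂ)).re)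

/-- the main theorem for a system -/
def GMain : Prop :=
  ∀ S : Sys, S.Ok → ∀ Y ∈ Ioo S.a S.b,
    AnalyticOnNhd ℝ (fun x : ℝ => (S.p 0 (x : ℂ) (S.V Y x 0 : ℂ)).re) univ

/-! ### Leaf functions for the Harnack type inequality `GGron` -/

/-- auxiliary functions along a periodic analytic leaf -/
def GLeaf : Prop :=
  ∀ S : Sys, S.Ok → ∃ δ₀ : ℝ, 0 < δ₀ ∧ ∀ Y ∈ Icc S.a S.b, ∀ (N : ℕ) (m : ℤ),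
    (∀ x : ℝ, (S.g Y)^[N + 1] x = x + m) → AnalyticOnNhd ℝ (fun x : ℝ => S.V Y x 0) univ →
    ∃ (k C : ℝ) (Γ Γ₂ : ℝ → ℝ → ℂ → ℂ), 0 < k ∧ 0 < C ∧
    ∀ (δ ρ : ℝ) (w : ℂ → ℝ → ℂ) (c : ℂ), δ ≤ δ₀ → Tor S δ w ρ c →
      (∀ q : ℝ, ∀ s ∈ Icc (0:ℝ) 1,
        0 < (S.p s (q : ℂ) (w (q : ℂ) s) - S.p s (q : ℂ) (S.V Y q s : ℂ)).im ∧
        k * (w (q : ℂ) s).im ≤ (Γ s q (w (q : ℂ) s)).im ∧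
        (Γ s q (w (q : ℂ) s)).im ≤ C * (w (q : ℂ) s).im ∧
        |(Γ₂ s q (w (q : ℂ) s)).im| ≤ C * (w (q : ℂ) s).im) ∧
      ContinuousOn (fun z : ℝ × ℝ => Γ z.2 z.1 (w (z.1 : ℂ) z.2)) (univ ×ˢ Icc (0:ℝ) 1) ∧
      ContinuousOn (fun z : ℝ × ℝ => Γ₂ z.2 z.1 (w (z.1 : ℂ) z.2)) (univ ×ˢ Icc (0:ℝ) 1) ∧
      ∃ A' : ℝ → ℝ → ℂ, ContinuousOn (fun z : ℝ × ℝ => A' z.1 z.2) (univ ×ˢ Icc (0:ℝ) 1) ∧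
        ∀ q : ℝ, ∀ s ∈ Icc (0:ℝ) 1,
          HasDerivAt (fun q' : ℝ => Γ s q' (w (q' : ℂ) s)) (A' q s) q ∧
          HasDerivWithinAt (fun τ : ℝ => Complex.log
              (S.p τ ((q + (τ - s) * S.V Y q s : ℝ) : ℂ)
                  (w ((q + (τ - s) * S.V Y q s : ℝ) : ℂ) τ)
                - S.p τ ((q + (τ - s) * S.V Y q s : ℝ) : ℂ) (S.V Y q s : ℂ)))
            (-((deriv (fun q' : ℝ => S.V Y q' s) q : ℝ) : ℂ) - A' q s + Γ₂ s q (w (q : ℂ) s))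
            (Icc (0:ℝ) 1) s

end Pool.Agent.Helper76.FT
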