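import Pool.Agent.Helper86.FT.Gal
import Pool.Agent.Helper53.FT.Lin
import Pool.Agent.Helper94.FT.Uniq
import Pool.Agent.Helper32.FT.Newton
import Pool.Agent.Helper33.FT.Cross
import Pool.Agent.Helper29.FT.MinP
import Pool.Agent.Helper40.FT.Gap
import Pool.Agent.Helper52.FT.Typ
import Pool.Agent.Helper52.FT.Refl
import Pool.Agent.Helper61.FT.Fac
import Pool.Agent.Helper52.FT.Weight
import Pool.Agent.Helper54.FT.Fin
import Pool.Agent.Helper65.FT.Reg
import Pool.Agent.Helper30.FT.Mom
import Pool.Agent.Helper74.FT.Mn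
import Pool.Agent.Helper37.FT.Chart
import Pool.Agent.Helper37.FT.Om
import Pool.Agent.Helper59.FT.Jac
import Pool.Agent.Helper83.FT.Sign
import Pool.Agent.Helper75.FT.Thx
import Pool.Agent.Helper61.FT.Slope
import Pool.Agent.Helper68.FT.TorP
import Pool.Agent.Helper29.FT.Height
import Pool.Agent.Helper94.FT.Flux
import Pool.Agent.Helper50.FT.Loc
import Pool.Agent.Helper13.FT.STRAND2
import Pool.Agent.Helper18.FT.Three
import Pool.Agent.Helper39.FT.THIN
import Pool.Agent.Helper87.FT.Ape
import Pool.Agent.Helper32.FT.Gron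
import Pool.Agent.Helper56.FT.Pos
import Pool.Agent.Helper77.FT.BiLip
import Pool.Agent.Helper52.FT.Strip3
import Pool.Agent.Helper52.FT.Comp
import Pool.Agent.Helper76.FT.GoalsC

/-!
# The chain of the lemmas, parts A, B, G
-/

set_option autoImplicit false

namespace Pool.Agent.Helper76.FT

theorem c_gal : GGal := Pool.Agent.Helper86.FT.ft_gal
theorem c_lin : GLin := Pool.Agent.Helper53.FT.ft_lin c_gal
theorem c_uniq : GUniq := Pool.Agent.Helper94.FT.ft_uniq
theorem c_newton : GNewton := Pool.Agent.Helper32.FTNewton.ft_newton c_lin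
theorem c_cross : GCross := Pool.Agent.Helper33.FT.ft_cross
theorem c_minp : GMinP := Pool.Agent.Helper29.FT.ft_minp
theorem c_gap : GGap := Pool.Agent.Helper40.FT.ft_gap
theorem c_fin : GFin := Pool.Agent.Helper54.FT.ft_fin Pool.Agent.Helper52.FT.ft_refl
  Pool.Agent.Helper52.FT.ft_typ (Pool.Agent.Helper52.FT.ft_weight Pool.Agent.Helper61.FT.ft_fac)
theorem c_reg : GReg := Pool.Agent.Helper65.FT.ft_reg
theorem c_mom : GMom := Pool.Agent.Helper30.FT.ft_mom c_reg
theorem c_mn : GMn := Pool.Agent.Helper74.FT.ft_mn c_reg c_mom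
theorem c_chart : GChart := Pool.Agent.Helper37.FT.ft_chart
theorem c_om : GOM := Pool.Agent.Helper37.FT.ft_om
theorem c_jac : GJac := Pool.Agent.Helper59.FT.ft_jac c_reg c_mom
theorem c_sign : GSign := Pool.Agent.Helper83.FT.ft_sign c_reg c_mom c_jac
theorem c_thx : GTHX := Pool.Agent.Helper75.FT.ft_thx c_reg c_chart c_om
theorem c_slope : GSlope := Pool.Agent.Helper61.FT.ft_slope c_reg c_chart c_om c_sign c_thx
theorem c_torp : GTorP := Pool.Agent.Helper68.FT.ft_torp c_reg c_mom
theorem c_height : GHeight := Pool.Agent.Helper29.FT.ft_height c_slope c_torp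
theorem c_flux : GFlux := Pool.Agent.Helper94.FT.ft_flux c_torp
theorem c_loc : GLoc := Pool.Agent.Helper50.FT.ft_loc c_reg c_jac
theorem c_strand : GStrand := Pool.Agent.Helper13.FT.ft_strand c_reg c_chart c_om c_loc c_minp
theorem c_three : GThree := Pool.Agent.Helper18.FT.ft_three c_reg c_strand c_cross
theorem c_thin : GThin :=
  Pool.Agent.Helper39.FT.ft_thin c_reg c_mom c_mn c_torp c_height c_three
theorem c_ape : GApe :=
  Pool.Agent.Helper87.FT.ft_ape c_reg c_torp c_height c_flux c_strand c_gap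
theorem c_bilip : GBiLip := Pool.Agent.Helper77.FT.ft_bilip c_reg c_torp c_slope c_sign
theorem c_strip : GStrip :=
  Pool.Agent.Helper52.FT.ft_strip c_reg c_chart c_om c_sign c_thx c_torp c_bilip
theorem c_comp : GComp := Pool.Agent.Helper52.FT.ft_comp c_reg c_mom c_torp c_strip
theorem c_gron (h : GLeaf) : GGron := Pool.Agent.Helper32.FTGron.ft_gron c_reg c_mom c_torp h
theorem c_pos (h : GLeaf) : GPos :=
  Pool.Agent.Helper56.FT.ft_pos c_reg c_torp c_height c_strand c_ape (c_gron h)

end Pool.Agent.Helper76.FT
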