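import Pool.Agent.Helper76.FT.GoalsS

/-!
# Assembly: the main theorem for a system, and the frozen statement from its parts
-/

set_option autoImplicit false

namespace Pool.Agent.Helper76.FT

open Complex Set Filter Topology Pool.Agent.Helper37.FTM

/-- the main theorem for a system, from the family and the final step -/
theorem ft_main (hmn : GMn) (hfam : GFam) (hfin : GFin) : GMain := by
  intro S hS Y hY
  obtain ⟨hm1, hm2, hm3⟩ := hmn S hS
  set Y₁ : ℝ := (S.a + min Y 0) / 2 with hY1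
  set Y₂ : ℝ := (S.b + max Y 0) / 2 with hY2
  have ha := hS.ha
  have hb := hS.hb
  have hmin : S.a < min Y 0 := lt_min hY.1 ha
  have hmax : max Y 0 < S.b := max_lt hY.2 hb
  have h1 : Y₁ ∈ Ioo S.a S.b := by
    constructor
    · rw [hY1]; linarith
    · have : min Y 0 ≤ 0 := min_le_right _ _
      rw [hY1]; linarith
  have h2 : Y₂ ∈ Ioo S.a S.b := by
    constructor
    · have : 0 ≤ max Y 0 := le_max_right _ _
      rw [hY2]; linarith
    · rw [hY2]; linarith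
  have h1' : Y₁ < 0 := by
    have : min Y 0 ≤ 0 := min_le_right _ _
    rw [hY1]; linarith
  have h2' : 0 < Y₂ := by
    have : 0 ≤ max Y 0 := le_max_right _ _
    rw [hY2]; linarith
  have h3 : Y ∈ Ioo Y₁ Y₂ := by
    have e1 : min Y 0 ≤ Y := min_le_left _ _
    have e2 : Y ≤ max Y 0 := le_max_left _ _
    constructor
    · rw [hY1]; linarith
    · rw [hY2]; linarith
  obtain ⟨U, u, η, a, M, k, hη, ha0, hk, f2, f3, f4, f5, f6, f7, f8⟩ :=
    hfam S hS Y₁ h1 Y₂ h2 h1' h2'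
  have hc12 : S.mn Y₁ < S.mn Y₂ :=
    hm2 (Ioo_subset_Icc_self h1) (Ioo_subset_Icc_self h2) (h1'.trans h2')
  have hc : S.mn Y ∈ Ioo (S.mn Y₁) (S.mn Y₂) :=
    ⟨hm2 (Ioo_subset_Icc_self h1) (Ioo_subset_Icc_self hY) h3.1,
      hm2 (Ioo_subset_Icc_self hY) (Ioo_subset_Icc_self h2) h3.2⟩
  have key := hfin U u (S.mn Y₁) (S.mn Y₂) η a M k hc12 hη ha0 hk f2 f3 f4 f5 f6 f7 (S.mn Y) hc
  have e : (fun x : ℝ => (S.p 0 (x : ℂ) (S.V Y x 0 : ℂ)).re) = u (S.mn Y) := by
    funext x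
    exact (f8 Y h3 x).symm
  rw [e]
  exact key

/-- the frozen statement, from the construction of the system and the main theorem -/
theorem assemble (hsys : GSys) (hmain : GMain) :
    ∀ (F : ℝ × ℝ → ℝ × ℝ) (u : ℝ → ℝ → ℝ),
      AnalyticOnNhd ℝ F Set.univ →
      Function.Bijective F →
      (∀ x y : ℝ, F (x + 1, y) = ((F (x, y)).1 + 1, (F (x, y)).2)) →
      (∀ p : ℝ × ℝ, LinearMap.det (fderiv ℝ F p : ℝ × ℝ →ₗ[ℝ] ℝ × ℝ) = 1) →
      (∀ x y : ℝ, 0 < deriv (fun t : ℝ => (F (x, t)).1) y) →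
      (∀ c : ℝ, Continuous (u c)) →
      (∀ c x : ℝ, u c (x + 1) = u c x) →
      (∀ c x : ℝ, (F (x, u c x)).2 = u c (F (x, u c x)).1) →
      (∀ p : ℝ × ℝ, ∃! c : ℝ, p.2 = u c p.1) →
      ∀ c : ℝ, AnalyticOnNhd ℝ (u c) Set.univ := by
  intro F u h1 h2 h3 h4 h5 h6 h7 h8 h9
  have hF : Fol F u := ⟨h1, h2, h3, h4, h5, h6, h7, h8, h9⟩
  obtain ⟨G, U', hG, hU0, hG0, hred⟩ := hF.reduce
  refine hred fun Y => ?_
  set B : ℝ := |Y| + 1 with hB
  have hB0 : 0 < B := by positivity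
  obtain ⟨S, hS, hSa, hSb, hSU⟩ := hsys G U' hG hU0 hG0 B hB0
  have hY : Y ∈ Ioo S.a S.b := by
    rw [hSa, hSb, hB]
    constructor
    · have := neg_abs_le Y
      linarith
    · have := le_abs_self Y
      linarith
  have key := hmain S hS Y hY
  have e : (fun x : ℝ => (S.p 0 (x : ℂ) (S.V Y x 0 : ℂ)).re) = U' Y := by
    funext x
    refine hSU Y ?_ x
    rw [← hSa, ← hSb]
    exact Ioo_subset_Icc_self hY
  rw [e] at key
  exact key

end Pool.Agent.Helper76.FT
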