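import Pool.Agent.Helper76.FT.Chain1
import Pool.Agent.Helper76.FT.Main
import Pool.Agent.Helper67.FT.W
import Pool.Agent.Helper89.FT.E
import Pool.Agent.Helper85.FT.Shrink
import Pool.Agent.Helper8.FT.UniqT
import Pool.Agent.Helper31.FT.Open
import Pool.Agent.Helper53.FT.Start
import Pool.Agent.Helper6.FT.Region
import Pool.Agent.Helper49.FT.EXIST
import Pool.Agent.Helper11.FT.Low
import Pool.Agent.Helper93.FT.ContS
import Pool.Agent.Helper45.FT.Fam
import Pool.Agent.Helper69.FT.FromPhi

/-!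
# The chain of the lemmas, part C
-/

set_option autoImplicit false

namespace Pool.Agent.Helper76.FT

theorem c_w : GW := Pool.Agent.Helper67.FT.ft_w c_reg c_mom
theorem c_e : GE := Pool.Agent.Helper89.FT.ft_e c_reg c_mom
theorem c_shrink : GShrink := Pool.Agent.Helper85.FTShrink.ft_shrink c_reg
theorem c_fromphi : GFromPhi := Pool.Agent.Helper69.FT.ft_fromphi c_reg c_mom c_e
theorem c_region : GRegion := Pool.Agent.Helper6.FT.ft_region c_reg c_mn c_thin
theorem c_low : GLow := Pool.Agent.Helper11.FT.ft_low c_reg c_chart c_om c_torp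
theorem c_uniqt (h : GToPhi) : GUniqT :=
  Pool.Agent.Helper8.FT.ft_uniqt c_reg c_mom c_torp c_w c_e c_shrink h c_uniq
theorem c_open (h : GToPhi) : GOpen :=
  Pool.Agent.Helper31.FT.ft_open c_reg c_mom c_torp c_w c_e c_shrink h c_fromphi c_newton
theorem c_start : GStart :=
  Pool.Agent.Helper53.FT.St.ft_start c_reg c_mom c_w c_e c_fromphi c_newton
theorem c_exist (h : GToPhi) (hl : GLeaf) : GExist :=
  Pool.Agent.Helper49.FT.ft_exist c_mn (c_open h) c_start c_region (c_pos hl) c_comp
theorem c_conts (h : GToPhi) (ht : GTL) : GContS :=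
  Pool.Agent.Helper93.FT.ft_conts c_reg (c_uniqt h) c_comp ht
theorem c_fam (h : GToPhi) (hl : GLeaf) (ht : GTL) (hh : GHolo) : GFam :=
  Pool.Agent.Helper45.FT.ft_fam c_reg c_mom c_mn c_torp c_thin (c_pos hl) c_shrink c_strip
    (c_exist h hl) hh c_low (c_conts h ht)
theorem c_main (h : GToPhi) (hl : GLeaf) (ht : GTL) (hh : GHolo) : GMain :=
  ft_main c_mn (c_fam h hl ht hh) c_fin

end Pool.Agent.Helper76.FT
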