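import Pool.Agent.Helper76.FT.Chain2
import Pool.Agent.Helper27.FT.TL
import Pool.Agent.Helper3.FT.Holo
import Pool.Agent.Helper37.FT.SysF
import Pool.Agent.Helper86.FT.ToPhi

/-!
# The chain of the lemmas, end
-/

set_option autoImplicit false

namespace Pool.Agent.Helper76.FT

theorem c_tl : GTL := Pool.Agent.Helper27.FT.ft_tl
theorem c_tophi : GToPhi := Pool.Agent.Helper86.FTToPhi.ft_tophi c_reg c_mom c_torp c_e
theorem c_holo : GHolo :=
  Pool.Agent.Helper3.FT.ft_holo c_reg c_mom c_torp c_w c_e c_shrink c_tophi (c_uniqt c_tophi)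
    c_strip c_comp c_tl c_lin c_uniq
theorem c_sys : GSys := Pool.Agent.Helper37.FT.ft_sys
theorem c_all (hl : GLeaf) : GMain := c_main c_tophi hl c_tl c_holo

end Pool.Agent.Helper76.FT
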