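import Pool.Agent.Helper76.FT.Chain3
import Pool.Agent.Helper76.FT.LeafFin
import Pool.Agent.Helper10.FT.LeafC
import Pool.Agent.Helper37.FT.LeafV2

/-!
# The chain of the lemmas: conclusion
-/

set_option autoImplicit false

namespace Pool.Agent.Helper76.FT

theorem c_leaf : GLeaf := Pool.Agent.Helper10.FT.ft_leaf_of c_reg c_mom c_torp
  (Pool.Agent.Helper76.FT.Leaf.glf c_reg c_mom) (Pool.Agent.Helper37.FT.ft_leafV c_reg)

theorem c_gmain : GMain := c_all c_leaf

end Pool.Agent.Helper76.FT
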