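import Mathlib

/-!
# MP_39e2b7_an (S04375): complex tori of a foliated twist map. Basic definitions.

Functions of a complex space variable `z` (in a strip) and a time `t` in `[0, 1]`.
-/

set_option autoImplicit false

namespace Pool.Agent.Helper76.FT

open Complex Set

/-- horizontal strip -/
def Str (ρ : ℝ) : Set ℂ := {z | |z.im| < ρ}

/-- holomorphic and 1-periodic in `z` on the strip, jointly continuous, for `t` in `[0, 1]` -/
structure SH (f : ℂ → ℝ → ℂ) (ρ : ℝ) : Prop where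
  hol : ∀ t ∈ Icc (0:ℝ) 1, DifferentiableOn ℂ (fun z => f z t) (Str ρ)
  cont : ContinuousOn (fun q : ℂ × ℝ => f q.1 q.2) (Str ρ ×ˢ Icc (0:ℝ) 1)
  per : ∀ z ∈ Str ρ, ∀ t ∈ Icc (0:ℝ) 1, f (z + 1) t = f z t

/-- the `z`-derivative -/
noncomputable def dz (f : ℂ → ℝ → ℂ) (z : ℂ) (t : ℝ) : ℂ := deriv (fun z' => f z' t) z

/-- `φ` solves `τ φ_t + w φ_z + e = g` on the strip, and is 1-periodic in time -/
structure LSol (φ w g : ℂ → ℝ → ℂ) (e : ℂ) (τ ρ : ℝ) : Prop where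
  sh : SH φ ρ
  close : ∀ z ∈ Str ρ, φ z 1 = φ z 0
  eq : ∀ z ∈ Str ρ, ∀ t ∈ Icc (0:ℝ) 1,
    HasDerivWithinAt (fun s => φ z s) ((g z t - w z t * dz φ z t - e) / τ) (Icc (0:ℝ) 1) t

end Pool.Agent.Helper76.FT
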