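import Pool.Agent.Helper76.FT.Defs

/-!
# Part A: the linear and the nonlinear periodic problem on a strip

Each `def ... : Prop` is a lemma to be proved elsewhere.
-/

set_option autoImplicit false

namespace Pool.Agent.Helper76.FT

open Complex Set

/-- trigonometric monomial -/
noncomputable def ee (m n : ℤ) (z : ℂ) (t : ℝ) : ℂ :=
  Complex.exp (2 * Real.pi * I * (m * z + n * t))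

/-- trigonometric polynomial with frequencies in a finite set -/
noncomputable def tp (A : Finset (ℤ × ℤ)) (a : ℤ × ℤ → ℂ) (z : ℂ) (t : ℝ) : ℂ :=
  ∑ k ∈ A, a k * ee k.1 k.2 z t

/-- Fourier coefficient of a function on `ℝ × [0, 1]` -/
noncomputable def fco (f : ℂ → ℝ → ℂ) (m n : ℤ) : ℂ :=
  ∫ t in (0:ℝ)..1, ∫ x in (0:ℝ)..1, f (x : ℂ) t * ee (-m) (-n) (x : ℂ) t

/-- Galerkin approximation: a trigonometric polynomial `φ` with frequencies in `A` (no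
frequency with `m = 0`) such that all Fourier coefficients of `τ φ_t + w φ_z - g` with
frequency in `A` vanish, with two energy bounds (boundary lines `|Im z| = ρ'`) -/
def GGal : Prop :=
  ∀ (μ M : ℝ), 0 < μ → 0 < M → ∃ C : ℝ, 0 < C ∧
  ∀ (ρ ρ' τ G : ℝ), 0 < ρ' → ρ' < ρ → 1 ≤ τ → 0 ≤ G →
  ∀ (w g : ℂ → ℝ → ℂ), SH w ρ → SH g ρ →
    (∀ z ∈ Str ρ, ∀ t ∈ Icc (0:ℝ) 1, μ ≤ (w z t).im ∧ ‖w z t‖ ≤ M ∧ ‖g z t‖ ≤ G) →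
  ∀ A : Finset (ℤ × ℤ), (∀ k ∈ A, k.1 ≠ 0) →
    ∃ a : ℤ × ℤ → ℂ,
      (∀ k ∈ A, τ * (2 * Real.pi * I * k.2) * a k
        + fco (fun z t => w z t * dz (tp A a) z t - g z t) k.1 k.2 = 0) ∧
      ∑ k ∈ A, Real.exp (4 * Real.pi * ρ' * |(k.1 : ℝ)|)
        * (((k.1 : ℝ))^2 + τ^2 * ((k.2 : ℝ))^2) * ‖a k‖^2 ≤ C * G^2

/-- the linear problem -/
def GLin : Prop :=
  ∀ (μ M : ℝ), 0 < μ → 0 < M → ∃ C : ℝ, 0 < C ∧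
  ∀ (ρ δ τ G : ℝ), 0 < δ → δ < ρ → ρ ≤ 1 → 1 ≤ τ → 0 ≤ G →
  ∀ (w g : ℂ → ℝ → ℂ), SH w ρ → SH g ρ →
    (∀ z ∈ Str ρ, ∀ t ∈ Icc (0:ℝ) 1, μ ≤ (w z t).im ∧ ‖w z t‖ ≤ M ∧ ‖g z t‖ ≤ G) →
    ∃ (φ : ℂ → ℝ → ℂ) (e : ℂ), LSol φ w g e τ (ρ - δ) ∧ ‖e‖ ≤ C * G ∧
      ∀ z ∈ Str (ρ - δ), ∀ t ∈ Icc (0:ℝ) 1, ‖dz φ z t‖ ≤ C * G / δ^2 ∧ ‖φ z t‖ ≤ C * G / δ^2

/-- energy identity: uniqueness for the linear problem (positivity only on the real line) -/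
def GUniq : Prop :=
  ∀ (ρ τ : ℝ), 0 < ρ → 0 < τ → ∀ (w φ : ℂ → ℝ → ℂ) (e : ℂ), SH w ρ →
    (∀ x : ℝ, ∀ t ∈ Icc (0:ℝ) 1, 0 < (w (x : ℂ) t).im) →
    LSol φ w (fun _ _ => 0) e τ ρ →
    e = 0 ∧ ∀ x : ℝ, ∀ t ∈ Icc (0:ℝ) 1, dz φ (x : ℂ) t = 0

/-- hypotheses on the nonlinearity `N(z, t, u)` -/
structure NL (N : ℂ → ℝ → ℂ → ℂ) (ρ d M μ : ℝ) : Prop where
  hol : ∀ t ∈ Icc (0:ℝ) 1, DifferentiableOn ℂ (fun p : ℂ × ℂ => N p.1 t p.2)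
    (Str ρ ×ˢ Metric.ball (0:ℂ) d)
  cont : ContinuousOn (fun q : ℂ × ℝ × ℂ => N q.1 q.2.1 q.2.2)
    (Str ρ ×ˢ (Icc (0:ℝ) 1 ×ˢ Metric.ball (0:ℂ) d))
  per : ∀ z ∈ Str ρ, ∀ t ∈ Icc (0:ℝ) 1, ∀ u ∈ Metric.ball (0:ℂ) d, N (z + 1) t u = N z t u
  bd : ∀ z ∈ Str ρ, ∀ t ∈ Icc (0:ℝ) 1, ∀ u ∈ Metric.ball (0:ℂ) d, ‖N z t u‖ ≤ M
  pos : ∀ z ∈ Str ρ, ∀ t ∈ Icc (0:ℝ) 1, μ ≤ (deriv (fun u => N z t u) 0).im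

/-- `ψ` solves `τ ψ_t + N(z, t, ψ_z) = e` -/
structure NSol (N : ℂ → ℝ → ℂ → ℂ) (ψ : ℂ → ℝ → ℂ) (e : ℂ) (τ ρ : ℝ) : Prop where
  sh : SH ψ ρ
  close : ∀ z ∈ Str ρ, ψ z 1 = ψ z 0
  eq : ∀ z ∈ Str ρ, ∀ t ∈ Icc (0:ℝ) 1,
    HasDerivWithinAt (fun s => ψ z s) ((e - N z t (dz ψ z t)) / τ) (Icc (0:ℝ) 1) t

/-- Newton's method -/
def GNewton : Prop :=
  ∀ (ρ d M μ : ℝ), 0 < ρ → ρ ≤ 1 → 0 < d → 0 < M → 0 < μ →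
  ∃ ε0 C : ℝ, 0 < ε0 ∧ 0 < C ∧
  ∀ (N : ℂ → ℝ → ℂ → ℂ), NL N ρ d M μ → ∀ (τ ε : ℝ) (e0 : ℂ), 1 ≤ τ → 0 ≤ ε → ε ≤ ε0 →
    (∀ z ∈ Str ρ, ∀ t ∈ Icc (0:ℝ) 1, ‖N z t 0 - e0‖ ≤ ε) →
    ∃ (ψ : ℂ → ℝ → ℂ) (e : ℂ), NSol N ψ e τ (ρ / 2) ∧ ‖e - e0‖ ≤ C * ε ∧
      ∀ z ∈ Str (ρ / 2), ∀ t ∈ Icc (0:ℝ) 1, ‖dz ψ z t‖ ≤ C * ε ∧ ‖dz ψ z t‖ < d

end Pool.Agent.Helper76.FT
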