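import Pool.Agent.Helper76.FT.GoalsC
import Pool.Agent.Helper37.Fol.CxDyn
import Pool.Agent.Helper37.Fol.Div
import Pool.Agent.Helper37.Fol.Reduce

/-!
# Part S: from a normalised foliated twist map to a system
-/

set_option autoImplicit false

namespace Pool.Agent.Helper76.FT

open Complex Set Filter Topology Pool.Agent.Helper37.FTM

/-- construction of the system -/
def GSys : Prop :=
  ∀ (F : ℝ × ℝ → ℝ × ℝ) (U : ℝ → ℝ → ℝ), Fol0 F U → (∀ x : ℝ, U 0 x = 0) →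
    (∀ x : ℝ, F (x, 0) = (x, 0)) → ∀ B : ℝ, 0 < B →
    ∃ S : Sys, S.Ok ∧ S.a = -B ∧ S.b = B ∧
      ∀ Y ∈ Icc (-B) B, ∀ x : ℝ, (S.p 0 (x : ℂ) (S.V Y x 0 : ℂ)).re = U Y x

/-- the real part of the construction: velocities of the leaves -/
structure VOk (F : ℝ × ℝ → ℝ × ℝ) (U : ℝ → ℝ → ℝ) (V : ℝ → ℝ → ℝ → ℝ) : Prop where
  zero : ∀ Y x : ℝ, V Y x 0 = ff F U Y x - x
  one : ∀ Y x : ℝ, V Y (ff F U Y x) 1 = ff F U Y x - x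
  cont : ContinuousOn (fun z : ℝ × ℝ × ℝ => V z.1 z.2.1 z.2.2) (univ ×ˢ (univ ×ˢ Icc (0:ℝ) 1))
  per : ∀ Y q : ℝ, ∀ t ∈ Icc (0:ℝ) 1, V Y (q + 1) t = V Y q t
  mono : ∀ Y Y' : ℝ, Y < Y' → ∀ q : ℝ, ∀ t ∈ Icc (0:ℝ) 1, V Y q t < V Y' q t
  line : ∀ Y q : ℝ, ∀ s ∈ Icc (0:ℝ) 1, ∀ t ∈ Icc (0:ℝ) 1, V Y (q + (s - t) * V Y q t) s = V Y q t

/-- existence of the velocities -/
def GV : Prop :=
  ∀ (F : ℝ × ℝ → ℝ × ℝ) (U : ℝ → ℝ → ℝ), Fol0 F U → ∃ V : ℝ → ℝ → ℝ → ℝ, VOk F U V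

/-- no conjugate points, for vectors in the real plane, forward and backward -/
def GDiscR : Prop :=
  ∀ (F : ℝ × ℝ → ℝ × ℝ) (U : ℝ → ℝ → ℝ), Fol0 F U → ∀ (x : ℤ → ℝ × ℝ) (v : ℤ → ℝ × ℝ),
    (∀ n, x (n + 1) = F (x n)) → (∀ n, v (n + 1) = fderiv ℝ F (x n) (v n)) →
    (v 0).1 ≤ 0 → 0 ≤ (v 1).1 → ¬ ((v 0).1 = 0 ∧ (v 1).1 = 0) →
    (∀ n : ℤ, 2 ≤ n → 0 < (v n).1) ∧ (∀ n : ℤ, n ≤ -1 → (v n).1 < 0)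

end Pool.Agent.Helper76.FT
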