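import Pool.Agent.Helper30.FT.Holo

/-!
# Parametric integrals of holomorphic functions
-/

set_option autoImplicit false

namespace Pool.Agent.Helper76.FT

open Complex Set Filter Topology MeasureTheory

variable {E : Type*} [NormedAddCommGroup E] [NormedSpace ℂ E]

/-- parameters for which the whole interval is in the domain -/
def slab (W : Set (E × ℂ)) : Set E := {ζ | ∀ x ∈ Icc (0:ℝ) 1, (ζ, (x : ℂ)) ∈ W}

theorem tube_aux {W : Set (E × ℂ)} (hW : IsOpen W) {ζ : E} (hζ : ζ ∈ slab W) :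
    ∃ δ : ℝ, 0 < δ ∧ ∀ ζ' ∈ Metric.ball ζ δ, ∀ x ∈ Icc (0:ℝ) 1, (ζ', (x : ℂ)) ∈ W := by
  have hc : Continuous fun y : ℝ × E => ((y.2, (y.1 : ℂ)) : E × ℂ) := by fun_prop
  have hpre : IsOpen ((fun y : ℝ × E => ((y.2, (y.1 : ℂ)) : E × ℂ)) ⁻¹' W) := hW.preimage hc
  obtain ⟨u, v, hu, hv, hsu, hxv, huv⟩ := generalized_tube_lemma (s := Icc (0:ℝ) 1)
    (t := {ζ}) isCompact_Icc isCompact_singleton hpre (by
      rintro ⟨s, x⟩ ⟨hs, hx'⟩
      simp only [mem_singleton_iff] at hx'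
      subst hx'
      exact hζ s hs)
  obtain ⟨δ, hδ, hb⟩ := Metric.isOpen_iff.mp hv ζ (hxv rfl)
  exact ⟨δ, hδ, fun ζ' hζ' x hx => huv (show (x, ζ') ∈ u ×ˢ v from ⟨hsu hx, hb hζ'⟩)⟩

theorem isOpen_slab {W : Set (E × ℂ)} (hW : IsOpen W) : IsOpen (slab W) := by
  rw [Metric.isOpen_iff]
  intro ζ hζ
  obtain ⟨δ, hδ, h⟩ := tube_aux hW hζ
  exact ⟨δ, hδ, fun ζ' hζ' x hx => h ζ' hζ' x hx⟩

/-- differentiation under the integral sign -/
theorem hasFDerivAt_slab {W : Set (E × ℂ)} (hW : IsOpen W) {G : E × ℂ → ℂ}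
    (hG : DifferentiableOn ℂ G W) {ζ : E} (hζ : ζ ∈ slab W) :
    ContinuousOn (fun x : ℝ => (fderiv ℂ G (ζ, (x : ℂ))).comp (ContinuousLinearMap.inl ℂ E ℂ))
      (Icc (0:ℝ) 1) ∧
    HasFDerivAt (fun ζ : E => ∫ x in (0:ℝ)..1, G (ζ, (x : ℂ)))
      (∫ x in (0:ℝ)..1, (fderiv ℂ G (ζ, (x : ℂ))).comp (ContinuousLinearMap.inl ℂ E ℂ)) ζ := by
  have hfc : ContinuousOn (fderiv ℂ G) W := fun z hz =>
    (Pool.Agent.Helper30.FT.continuousAt_fderiv hW hG hz).continuousWithinAt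
  -- boundedness of the derivative near the interval
  have hco : ContinuousOn (fun x : ℝ => ‖fderiv ℂ G (ζ, (x : ℂ))‖) (Icc (0:ℝ) 1) := by
    refine (hfc.comp (f := fun x : ℝ => ((ζ, (x : ℂ)) : E × ℂ)) ?_ fun x hx => hζ x hx).norm
    fun_prop
  obtain ⟨C, hC⟩ := isCompact_Icc.bddAbove_image hco
  have hC' : ∀ x ∈ Icc (0:ℝ) 1, ‖fderiv ℂ G (ζ, (x : ℂ))‖ ≤ C := fun x hx =>
    hC (mem_image_of_mem _ hx)
  set W' : Set (E × ℂ) := W ∩ (fun z => ‖fderiv ℂ G z‖) ⁻¹' Iio (C + 1) with hW'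
  have hW'o : IsOpen W' := (hfc.norm).isOpen_inter_preimage hW isOpen_Iio
  have hζ' : ζ ∈ slab W' := fun x hx => ⟨hζ x hx, by
    show ‖fderiv ℂ G (ζ, (x : ℂ))‖ < C + 1
    linarith [hC' x hx]⟩
  obtain ⟨δ, hδ, hball⟩ := tube_aux hW'o hζ'
  have hI : uIoc (0:ℝ) 1 ⊆ Icc (0:ℝ) 1 := by
    rw [uIoc_of_le zero_le_one]; exact Ioc_subset_Icc_self
  have hcG : ∀ ζ' ∈ Metric.ball ζ δ, ContinuousOn (fun x : ℝ => G (ζ', (x : ℂ))) (Icc (0:ℝ) 1) :=
    fun ζ' hζ' => hG.continuousOn.comp (by fun_prop) fun x hx => (hball ζ' hζ' x hx).1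
  have hcD : ContinuousOn (fun x : ℝ => (fderiv ℂ G (ζ, (x : ℂ))).comp
      (ContinuousLinearMap.inl ℂ E ℂ)) (Icc (0:ℝ) 1) := by
    have h1 : ContinuousOn (fun x : ℝ => fderiv ℂ G (ζ, (x : ℂ))) (Icc (0:ℝ) 1) :=
      hfc.comp (f := fun x : ℝ => ((ζ, (x : ℂ)) : E × ℂ)) (by fun_prop) fun x hx => hζ x hx
    exact h1.clm_comp continuousOn_const
  refine ⟨hcD, ?_⟩
  have hmem : ζ ∈ Metric.ball ζ δ := Metric.mem_ball_self hδ
  refine intervalIntegral.hasFDerivAt_integral_of_dominated_of_fderiv_le (𝕜 := ℂ)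
    (F := fun (ζ' : E) (x : ℝ) => G (ζ', (x : ℂ)))
    (F' := fun (ζ' : E) (x : ℝ) => (fderiv ℂ G (ζ', (x : ℂ))).comp
      (ContinuousLinearMap.inl ℂ E ℂ))
    (bound := fun _ => (C + 1) * ‖ContinuousLinearMap.inl ℂ E ℂ‖)
    (Metric.ball_mem_nhds ζ hδ) ?_ ?_ ?_ ?_ ?_ ?_
  · filter_upwards [Metric.ball_mem_nhds ζ hδ] with ζ' hζ'
    exact ((hcG ζ' hζ').mono hI).aestronglyMeasurable measurableSet_uIoc
  · apply ContinuousOn.intervalIntegrable
    rw [uIcc_of_le zero_le_one]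
    exact hcG ζ hmem
  · exact (hcD.mono hI).aestronglyMeasurable measurableSet_uIoc
  · refine Eventually.of_forall fun x hx ζ' hζ' => ?_
    have h1 := (hball ζ' hζ' x (hI hx)).2
    have h1' : ‖fderiv ℂ G (ζ', (x : ℂ))‖ < C + 1 := h1
    calc ‖(fderiv ℂ G (ζ', (x : ℂ))).comp (ContinuousLinearMap.inl ℂ E ℂ)‖
        ≤ ‖fderiv ℂ G (ζ', (x : ℂ))‖ * ‖ContinuousLinearMap.inl ℂ E ℂ‖ :=
          ContinuousLinearMap.opNorm_comp_le _ _
      _ ≤ _ := mul_le_mul_of_nonneg_right h1'.le (norm_nonneg _)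
  · exact intervalIntegrable_const
  · refine Eventually.of_forall fun x hx ζ' hζ' => ?_
    have h2 : HasFDerivAt G (fderiv ℂ G (ζ', (x : ℂ))) (ζ', (x : ℂ)) :=
      (hG.differentiableAt (hW.mem_nhds (hball ζ' hζ' x (hI hx)).1)).hasFDerivAt
    have h3 : HasFDerivAt (fun ζ' : E => ((ζ', (x : ℂ)) : E × ℂ))
        (ContinuousLinearMap.inl ℂ E ℂ) ζ' := hasFDerivAt_prodMk_left ζ' (x : ℂ)
    exact h2.comp ζ' h3

theorem differentiableOn_slab {W : Set (E × ℂ)} (hW : IsOpen W) {G : E × ℂ → ℂ}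
    (hG : DifferentiableOn ℂ G W) :
    DifferentiableOn ℂ (fun ζ : E => ∫ x in (0:ℝ)..1, G (ζ, (x : ℂ))) (slab W) := fun _ hζ =>
  (hasFDerivAt_slab hW hG hζ).2.differentiableAt.differentiableWithinAt

/-- the primitive along segments -/
theorem seg_deriv {O : Set ℂ} (hO : IsOpen O) {h : ℂ → ℂ} (hh : DifferentiableOn ℂ h O) {v w : ℂ}
    (hseg : ∀ x ∈ Icc (0:ℝ) 1, v + x * (w - v) ∈ O) :
    HasDerivAt (fun w' : ℂ => (w' - v) * ∫ x in (0:ℝ)..1, h (v + x * (w' - v))) (h w) w := by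
  set W : Set (ℂ × ℂ) := {z | v + z.2 * (z.1 - v) ∈ O} with hW
  have hWo : IsOpen W := hO.preimage (by fun_prop)
  set G : ℂ × ℂ → ℂ := fun z => h (v + z.2 * (z.1 - v)) with hG
  have hGd : DifferentiableOn ℂ G W := by
    intro z hz
    have h1 : DifferentiableAt ℂ h (v + z.2 * (z.1 - v)) := hh.differentiableAt (hO.mem_nhds hz)
    have h2 : DifferentiableAt ℂ (fun z : ℂ × ℂ => v + z.2 * (z.1 - v)) z := by fun_prop
    exact (h1.comp z h2).differentiableWithinAt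
  have hw : w ∈ slab W := fun x hx => hseg x hx
  obtain ⟨hc, hd⟩ := hasFDerivAt_slab hWo hGd hw
  have hder : ∀ x ∈ Icc (0:ℝ) 1,
      fderiv ℂ G (w, (x : ℂ)) (1, 0) = x * deriv h (v + x * (w - v)) := by
    intro x hx
    have h1 : HasDerivAt h (deriv h (v + x * (w - v))) (v + x * (w - v)) :=
      (hh.differentiableAt (hO.mem_nhds (hseg x hx))).hasDerivAt
    have h2 : HasDerivAt (fun w' : ℂ => G (w', (x : ℂ))) (deriv h (v + x * (w - v)) * (x * 1)) w := by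
      have h3 : HasDerivAt (fun w' : ℂ => v + x * (w' - v)) (x * 1) w := by
        have := ((hasDerivAt_id w).sub_const v).const_mul (x : ℂ)
        simpa using this.const_add v
      exact HasDerivAt.comp w h1 h3
    have h4 : HasDerivAt (fun w' : ℂ => G (w', (x : ℂ))) (fderiv ℂ G (w, (x : ℂ)) (1, 0)) w := by
      have h5 : HasFDerivAt G (fderiv ℂ G (w, (x : ℂ))) (w, (x : ℂ)) :=
        (hGd.differentiableAt (hWo.mem_nhds (hseg x hx))).hasFDerivAt
      have h6 : HasDerivAt (fun w' : ℂ => ((w', (x : ℂ)) : ℂ × ℂ)) (1, 0) w :=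
        (hasDerivAt_id w).prodMk (hasDerivAt_const w (x : ℂ))
      exact h5.comp_hasDerivAt w h6
    rw [h4.unique h2]; ring
  have hd2 : HasDerivAt (fun w' : ℂ => ∫ x in (0:ℝ)..1, h (v + x * (w' - v)))
      (∫ x in (0:ℝ)..1, (x : ℂ) * deriv h (v + x * (w - v))) w := by
    have h1 := hd.hasDerivAt
    convert h1 using 1
    have h2 : IntervalIntegrable (fun x : ℝ => (fderiv ℂ G (w, (x : ℂ))).comp
        (ContinuousLinearMap.inl ℂ ℂ ℂ)) volume 0 1 := by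
      apply ContinuousOn.intervalIntegrable
      rwa [uIcc_of_le zero_le_one]
    rw [ContinuousLinearMap.intervalIntegral_apply h2]
    refine intervalIntegral.integral_congr fun x hx => ?_
    rw [uIcc_of_le zero_le_one] at hx
    rw [ContinuousLinearMap.comp_apply, ContinuousLinearMap.inl_apply]
    exact (hder x hx).symm
  have hd3 := ((hasDerivAt_id w).sub_const v).mul hd2
  refine hd3.congr_deriv ?_
  have hch : ContinuousOn (fun x : ℝ => h (v + x * (w - v))) (Icc (0:ℝ) 1) :=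
    hh.continuousOn.comp (by fun_prop) hseg
  have hcd : ContinuousOn (fun x : ℝ => (x : ℂ) * deriv h (v + x * (w - v))) (Icc (0:ℝ) 1) := by
    refine ContinuousOn.mul (by fun_prop) ?_
    exact ((hh.deriv hO).continuousOn).comp (f := fun x : ℝ => v + x * (w - v)) (by fun_prop) hseg
  have i1 : IntervalIntegrable (fun x : ℝ => h (v + x * (w - v))) volume 0 1 := by
    apply ContinuousOn.intervalIntegrable; rwa [uIcc_of_le zero_le_one]
  have i2 : IntervalIntegrable (fun x : ℝ => (x : ℂ) * deriv h (v + x * (w - v))) volume 0 1 := by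
    apply ContinuousOn.intervalIntegrable; rwa [uIcc_of_le zero_le_one]
  have i3 : IntervalIntegrable (fun x : ℝ => h (v + x * (w - v))
      + (w - v) * ((x : ℂ) * deriv h (v + x * (w - v)))) volume 0 1 := i1.add (i2.const_mul _)
  have hF : ∀ x ∈ uIcc (0:ℝ) 1, HasDerivAt (fun x : ℝ => (x : ℂ) * h (v + x * (w - v)))
      (h (v + x * (w - v)) + (w - v) * ((x : ℂ) * deriv h (v + x * (w - v)))) x := by
    intro x hx
    rw [uIcc_of_le zero_le_one] at hx
    have h1 : HasDerivAt h (deriv h (v + x * (w - v))) (v + x * (w - v)) :=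
      (hh.differentiableAt (hO.mem_nhds (hseg x hx))).hasDerivAt
    have h2 : HasDerivAt (fun x : ℝ => (x : ℂ)) 1 x := Complex.ofRealCLM.hasDerivAt
    have h3 : HasDerivAt (fun x : ℝ => v + (x : ℂ) * (w - v)) (1 * (w - v)) x :=
      (h2.mul_const (w - v)).const_add v
    have h4 : HasDerivAt (fun x : ℝ => h (v + (x : ℂ) * (w - v)))
        (deriv h (v + x * (w - v)) * (1 * (w - v))) x := HasDerivAt.comp x h1 h3
    refine (h2.mul h4).congr_deriv ?_
    ring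
  have key := intervalIntegral.integral_eq_sub_of_hasDerivAt hF i3
  rw [intervalIntegral.integral_add i1 (i2.const_mul _), intervalIntegral.integral_const_mul] at key
  simp only [id_eq, one_mul]
  rw [key]
  simp

end Pool.Agent.Helper76.FT
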