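import Pool.Agent.Helper76.FT.LeafInt
import Pool.Agent.Helper76.FT.GoalsC

/-!
# Leaf functions: holomorphic functions of `ζ = (s, q, v, w)`
-/

set_option autoImplicit false

namespace Pool.Agent.Helper76.FT.Leaf

open Complex Set Filter Topology MeasureTheory

/-- the point of the region at time `0` on the world line of velocity `v + x (w - v)` -/
def pt (y : (ℂ × ℂ × ℂ × ℂ) × ℂ) : ℂ × ℂ :=
  (y.1.2.1 - y.1.1 * (y.1.2.2.1 + y.2 * (y.1.2.2.2 - y.1.2.2.1)),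
    y.1.2.2.1 + y.2 * (y.1.2.2.2 - y.1.2.2.1))

/-- the intermediate velocity -/
def sb (y : (ℂ × ℂ × ℂ × ℂ) × ℂ) : ℂ × ℂ × ℂ × ℂ :=
  (y.1.1, y.1.2.1, y.1.2.2.1, y.1.2.2.1 + y.2 * (y.1.2.2.2 - y.1.2.2.1))

variable (S : Sys)

/-- density at the intermediate velocity -/
def kk (y : (ℂ × ℂ × ℂ × ℂ) × ℂ) : ℂ := S.κ (pt y).1 (pt y).2

/-- the domain -/
def Om : Set (ℂ × ℂ × ℂ × ℂ) := slab (pt ⁻¹' (S.Nb 0 S.R))

noncomputable def I0 (ζ : ℂ × ℂ × ℂ × ℂ) : ℂ := ∫ x in (0:ℝ)..1, kk S (ζ, (x : ℂ))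

noncomputable def I1 (ζ : ℂ × ℂ × ℂ × ℂ) : ℂ := ∫ x in (0:ℝ)..1, (x : ℂ) * kk S (ζ, (x : ℂ))

noncomputable def LL (ζ : ℂ × ℂ × ℂ × ℂ) : ℂ :=
  ∫ x in (0:ℝ)..1, kk S (ζ, (x : ℂ)) / I0 S (sb (ζ, (x : ℂ)))

noncomputable def fA (ζ : ℂ × ℂ × ℂ × ℂ) : ℂ := (ζ.2.2.2 - ζ.2.2.1) * I0 S ζ

noncomputable def fR (ζ : ℂ × ℂ × ℂ × ℂ) : ℂ := I1 S ζ / I0 S ζ ^ 2

noncomputable def fJ (ζ : ℂ × ℂ × ℂ × ℂ) : ℂ :=
  ζ.2.2.1 + (ζ.2.2.2 - ζ.2.2.1) * I1 S ζ / I0 S ζ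

noncomputable def fG (ζ : ℂ × ℂ × ℂ × ℂ) : ℂ := (ζ.2.2.2 - ζ.2.2.1) * LL S ζ

/-- quotient of holomorphic functions -/
theorem ddiv {E : Type*} [NormedAddCommGroup E] [NormedSpace ℂ E] {f g : E → ℂ} {U : Set E}
    (hf : DifferentiableOn ℂ f U) (hg : DifferentiableOn ℂ g U) (h0 : ∀ z ∈ U, g z ≠ 0) :
    DifferentiableOn ℂ (fun z => f z / g z) U := by
  simp only [div_eq_mul_inv]
  exact hf.mul (hg.inv h0)

theorem continuous_pt : Continuous pt := by unfold pt; fun_prop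

theorem continuous_sb : Continuous sb := by unfold sb; fun_prop

theorem differentiable_pt : Differentiable ℂ pt := by unfold pt; fun_prop

theorem differentiable_sb : Differentiable ℂ sb := by unfold sb; fun_prop

theorem isOpen_Nb (t r : ℝ) : IsOpen (S.Nb t r) := by
  have : S.Nb t r = ⋃ y ∈ S.Reg t, {z : ℂ × ℂ | ‖z.1 - (y.1 : ℂ)‖ < r ∧ ‖z.2 - (y.2 : ℂ)‖ < r} := by
    ext z
    simp only [Sys.Nb, Set.mem_ofPred_eq, mem_iUnion, exists_prop]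
  rw [this]
  refine isOpen_biUnion fun y _ => ?_
  have h1 : IsOpen {z : ℂ × ℂ | ‖z.1 - (y.1 : ℂ)‖ < r} := isOpen_lt (by fun_prop) continuous_const
  have h2 : IsOpen {z : ℂ × ℂ | ‖z.2 - (y.2 : ℂ)‖ < r} := isOpen_lt (by fun_prop) continuous_const
  exact h1.inter h2

theorem isOpen_W : IsOpen (pt ⁻¹' (S.Nb 0 S.R)) := (isOpen_Nb S 0 S.R).preimage continuous_pt

theorem isOpen_Om : IsOpen (Om S) := isOpen_slab (isOpen_W S)

variable {S}

theorem pt_sb (ζ : ℂ × ℂ × ℂ × ℂ) (x y : ℂ) : pt (sb (ζ, x), y) = pt (ζ, x * y) := by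
  simp only [pt, sb, Prod.mk.injEq]
  constructor <;> ring

theorem sb_sb (ζ : ℂ × ℂ × ℂ × ℂ) (x y : ℂ) : sb (sb (ζ, x), y) = sb (ζ, x * y) := by
  ext <;> simp [sb]; ring

theorem sb_one (ζ : ℂ × ℂ × ℂ × ℂ) : sb (ζ, 1) = ζ := by
  ext <;> simp [sb]

theorem sb_mem {ζ : ℂ × ℂ × ℂ × ℂ} (hζ : ζ ∈ Om S) {x : ℝ} (hx : x ∈ Icc (0:ℝ) 1) :
    sb (ζ, (x : ℂ)) ∈ Om S := by
  intro y hy
  show pt (sb (ζ, (x : ℂ)), (y : ℂ)) ∈ S.Nb 0 S.R
  rw [pt_sb, ← Complex.ofReal_mul]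
  exact hζ (x * y) ⟨mul_nonneg hx.1 hy.1, mul_le_one₀ hx.2 hy.1 hy.2⟩

section

variable (h : S.Ok)
include h

theorem diff_kk : DifferentiableOn ℂ (kk S) (pt ⁻¹' (S.Nb 0 S.R)) := fun y hy =>
  ((h.κhol.differentiableAt ((isOpen_Nb S 0 S.R).mem_nhds hy)).comp y
    (differentiable_pt y)).differentiableWithinAt

theorem diff_I0 : DifferentiableOn ℂ (I0 S) (Om S) := differentiableOn_slab (isOpen_W S) (diff_kk h)

theorem diff_I1 : DifferentiableOn ℂ (I1 S) (Om S) := by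
  have h1 : DifferentiableOn ℂ (fun y : (ℂ × ℂ × ℂ × ℂ) × ℂ => y.2 * kk S y)
      (pt ⁻¹' (S.Nb 0 S.R)) := (differentiable_snd.differentiableOn).mul (diff_kk h)
  exact differentiableOn_slab (isOpen_W S) h1

theorem cont_kk {ζ : ℂ × ℂ × ℂ × ℂ} (hζ : ζ ∈ Om S) :
    ContinuousOn (fun x : ℝ => kk S (ζ, (x : ℂ))) (Icc (0:ℝ) 1) :=
  (diff_kk h).continuousOn.comp (by fun_prop) hζ

/-- the real part of `I0` is positive on the whole domain -/
theorem re_I0 : ∃ k0 : ℝ, 0 < k0 ∧ ∀ ζ ∈ Om S, k0 ≤ (I0 S ζ).re := by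
  obtain ⟨k0, hk0, hk⟩ := h.κpos
  refine ⟨k0, hk0, fun ζ hζ => ?_⟩
  have hi : IntervalIntegrable (fun x : ℝ => kk S (ζ, (x : ℂ))) volume 0 1 := by
    apply ContinuousOn.intervalIntegrable
    rw [uIcc_of_le zero_le_one]
    exact cont_kk h hζ
  have e : (I0 S ζ).re = ∫ x in (0:ℝ)..1, (kk S (ζ, (x : ℂ))).re := by
    have := Complex.reCLM.intervalIntegral_comp_comm hi
    simp only [Complex.reCLM_apply] at this
    rw [this]; rfl
  rw [e]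
  have h1 : ∫ x in (0:ℝ)..1, k0 ≤ ∫ x in (0:ℝ)..1, (kk S (ζ, (x : ℂ))).re := by
    refine intervalIntegral.integral_mono_on zero_le_one intervalIntegrable_const ?_ ?_
    · apply ContinuousOn.intervalIntegrable
      rw [uIcc_of_le zero_le_one]
      exact Complex.continuous_re.comp_continuousOn (cont_kk h hζ)
    · intro x hx
      exact hk _ (hζ x hx)
  simpa using h1

theorem I0_ne {ζ : ℂ × ℂ × ℂ × ℂ} (hζ : ζ ∈ Om S) : I0 S ζ ≠ 0 := by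
  obtain ⟨k0, hk0, hk⟩ := re_I0 h
  intro e
  have := hk ζ hζ
  rw [e] at this
  simp at this
  linarith

theorem diff_LL : DifferentiableOn ℂ (LL S) (Om S) := by
  set W : Set ((ℂ × ℂ × ℂ × ℂ) × ℂ) := pt ⁻¹' (S.Nb 0 S.R) ∩ sb ⁻¹' (Om S) with hW
  have hWo : IsOpen W := (isOpen_W S).inter ((isOpen_Om S).preimage continuous_sb)
  have h1 : DifferentiableOn ℂ (fun y : (ℂ × ℂ × ℂ × ℂ) × ℂ => kk S y / I0 S (sb y)) W := by
    refine ddiv ((diff_kk h).mono inter_subset_left) ?_ fun y hy => I0_ne h hy.2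
    exact (diff_I0 h).comp differentiable_sb.differentiableOn fun y hy => hy.2
  refine (differentiableOn_slab hWo h1).mono fun ζ hζ x hx => ⟨hζ x hx, sb_mem hζ hx⟩

theorem diff_A : DifferentiableOn ℂ (fA S) (Om S) :=
  DifferentiableOn.mul (by fun_prop) (diff_I0 h)

theorem diff_R : DifferentiableOn ℂ (fR S) (Om S) :=
  ddiv (diff_I1 h) ((diff_I0 h).pow 2) fun _ hζ => pow_ne_zero 2 (I0_ne h hζ)

theorem diff_J : DifferentiableOn ℂ (fJ S) (Om S) :=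
  DifferentiableOn.add (by fun_prop) (ddiv (DifferentiableOn.mul (by fun_prop) (diff_I1 h))
    (diff_I0 h) fun _ hζ => I0_ne h hζ)

theorem diff_G : DifferentiableOn ℂ (fG S) (Om S) :=
  DifferentiableOn.mul (by fun_prop) (diff_LL h)

/-- `J - v = R A` -/
theorem J_sub {ζ : ℂ × ℂ × ℂ × ℂ} (hζ : ζ ∈ Om S) : fJ S ζ - ζ.2.2.1 = fR S ζ * fA S ζ := by
  have := I0_ne h hζ
  unfold fJ fR fA
  field_simp
  ring

/-! ### derivatives in `w` -/

omit h in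
theorem slice_seg {s q v w : ℂ} (hζ : (s, q, v, w) ∈ Om S) {x : ℝ} (hx : x ∈ Icc (0:ℝ) 1) :
    (s, q, v, v + x * (w - v)) ∈ Om S ∧
      (q - s * (v + x * (w - v)), v + x * (w - v)) ∈ S.Nb 0 S.R := by
  have h1 := sb_mem hζ hx
  have h2 := hζ x hx
  exact ⟨h1, h2⟩

omit h in
theorem isOpen_slice (s q v : ℂ) : IsOpen {u : ℂ | (s, q, v, u) ∈ Om S ∧
    (q - s * u, u) ∈ S.Nb 0 S.R} := by
  have h1 : IsOpen {u : ℂ | (s, q, v, u) ∈ Om S} := (isOpen_Om S).preimage (by fun_prop)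
  have h2 : IsOpen {u : ℂ | (q - s * u, u) ∈ S.Nb 0 S.R} :=
    (isOpen_Nb S 0 S.R).preimage (by fun_prop)
  exact h1.inter h2

theorem diff_slice_k (s q v : ℂ) : DifferentiableOn ℂ (fun u : ℂ => S.κ (q - s * u) u)
    {u : ℂ | (s, q, v, u) ∈ Om S ∧ (q - s * u, u) ∈ S.Nb 0 S.R} := by
  intro u hu
  have h1 : DifferentiableAt ℂ (fun z : ℂ × ℂ => S.κ z.1 z.2) (q - s * u, u) :=
    h.κhol.differentiableAt ((isOpen_Nb S 0 S.R).mem_nhds hu.2)
  have h2 : DifferentiableAt ℂ (fun u : ℂ => ((q - s * u, u) : ℂ × ℂ)) u := by fun_prop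
  exact (DifferentiableAt.comp (g := fun z : ℂ × ℂ => S.κ z.1 z.2)
    (f := fun u : ℂ => ((q - s * u, u) : ℂ × ℂ)) u h1 h2).differentiableWithinAt

/-- `A_w = κ` -/
theorem A_w {s q v w : ℂ} (hζ : (s, q, v, w) ∈ Om S) :
    HasDerivAt (fun w' : ℂ => fA S (s, q, v, w')) (S.κ (q - s * w) w) w :=
  seg_deriv (isOpen_slice s q v) (diff_slice_k h s q v) fun _ hx => slice_seg hζ hx

/-- derivative of `(w - v)² I1` -/
theorem C_w {s q v w : ℂ} (hζ : (s, q, v, w) ∈ Om S) :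
    HasDerivAt (fun w' : ℂ => (w' - v) ^ 2 * I1 S (s, q, v, w'))
      ((w - v) * S.κ (q - s * w) w) w := by
  have h1 : DifferentiableOn ℂ (fun u : ℂ => (u - v) * S.κ (q - s * u) u)
      {u : ℂ | (s, q, v, u) ∈ Om S ∧ (q - s * u, u) ∈ S.Nb 0 S.R} :=
    DifferentiableOn.mul (by fun_prop) (diff_slice_k h s q v)
  have h2 := seg_deriv (isOpen_slice s q v) h1 (v := v) (w := w) fun _ hx => slice_seg hζ hx
  have e : (fun w' : ℂ => (w' - v) ^ 2 * I1 S (s, q, v, w')) = fun w' : ℂ => (w' - v) *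
      ∫ x in (0:ℝ)..1, (v + x * (w' - v) - v) * S.κ (q - s * (v + x * (w' - v)))
        (v + x * (w' - v)) := by
    funext w'
    have e1 : (∫ x in (0:ℝ)..1, (v + x * (w' - v) - v) * S.κ (q - s * (v + x * (w' - v)))
        (v + x * (w' - v))) = (w' - v) * I1 S (s, q, v, w') := by
      unfold I1
      rw [← intervalIntegral.integral_const_mul]
      refine intervalIntegral.integral_congr fun x _ => ?_
      simp only [kk, pt]
      ring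
    rw [e1]; ring
  rw [e]
  exact h2

/-- `Γ_w = κ / I0` -/
theorem G_w {s q v w : ℂ} (hζ : (s, q, v, w) ∈ Om S) :
    HasDerivAt (fun w' : ℂ => fG S (s, q, v, w'))
      (S.κ (q - s * w) w / I0 S (s, q, v, w)) w := by
  have h1 : DifferentiableOn ℂ (fun u : ℂ => S.κ (q - s * u) u / I0 S (s, q, v, u))
      {u : ℂ | (s, q, v, u) ∈ Om S ∧ (q - s * u, u) ∈ S.Nb 0 S.R} := by
    refine (diff_slice_k h s q v).div ?_ fun u hu => I0_ne h hu.1
    intro u hu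
    have h3 : DifferentiableAt ℂ (I0 S) (s, q, v, u) :=
      (diff_I0 h).differentiableAt ((isOpen_Om S).mem_nhds hu.1)
    have h4 : DifferentiableAt ℂ (fun u : ℂ => ((s, q, v, u) : ℂ × ℂ × ℂ × ℂ)) u := by fun_prop
    exact (h3.comp u h4).differentiableWithinAt
  exact seg_deriv (isOpen_slice s q v) h1 fun _ hx => slice_seg hζ hx

/-- `J_w` -/
theorem J_w {s q v w : ℂ} (hζ : (s, q, v, w) ∈ Om S) (hwv : w ≠ v) :
    HasDerivAt (fun w' : ℂ => fJ S (s, q, v, w'))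
      (S.κ (q - s * w) w / I0 S (s, q, v, w) - fR S (s, q, v, w) * S.κ (q - s * w) w) w := by
  have h0 := I0_ne h hζ
  have hd : w - v ≠ 0 := sub_ne_zero.2 hwv
  have hA : fA S (s, q, v, w) ≠ 0 := mul_ne_zero hd h0
  have h1 : HasDerivAt (fun w' : ℂ => v + (w' - v) ^ 2 * I1 S (s, q, v, w') / fA S (s, q, v, w'))
      (((w - v) * S.κ (q - s * w) w * fA S (s, q, v, w)
        - (w - v) ^ 2 * I1 S (s, q, v, w) * S.κ (q - s * w) w) / fA S (s, q, v, w) ^ 2) w :=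
    ((C_w h hζ).div (A_w h hζ) hA).const_add v
  have hev : (fun w' : ℂ => v + (w' - v) ^ 2 * I1 S (s, q, v, w') / fA S (s, q, v, w'))
      =ᶠ[𝓝 w] fun w' => fJ S (s, q, v, w') := by
    have h2 : ∀ᶠ w' in 𝓝 w, w' ≠ v := isOpen_ne.mem_nhds hwv
    have h3 : ∀ᶠ w' in 𝓝 w, (s, q, v, w') ∈ Om S :=
      ((isOpen_Om S).preimage (show Continuous fun w' : ℂ => ((s, q, v, w') : ℂ × ℂ × ℂ × ℂ) by
        fun_prop)).mem_nhds hζ
    filter_upwards [h2, h3] with w' hw' hζ'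
    have h4 := I0_ne h hζ'
    have h5 : w' - v ≠ 0 := sub_ne_zero.2 hw'
    show v + (w' - v) ^ 2 * I1 S (s, q, v, w') / ((w' - v) * I0 S (s, q, v, w')) =
      v + (w' - v) * I1 S (s, q, v, w') / I0 S (s, q, v, w')
    field_simp
  refine (h1.congr_of_eventuallyEq hev.symm).congr_deriv ?_
  show _ = S.κ (q - s * w) w / I0 S (s, q, v, w) - I1 S (s, q, v, w) / I0 S (s, q, v, w) ^ 2 *
    S.κ (q - s * w) w
  show ((w - v) * S.κ (q - s * w) w * ((w - v) * I0 S (s, q, v, w))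
        - (w - v) ^ 2 * I1 S (s, q, v, w) * S.κ (q - s * w) w) /
        ((w - v) * I0 S (s, q, v, w)) ^ 2 = _
  field_simp

end

/-- Frechet derivative in the direction `w` -/
theorem fderiv_w {f : ℂ × ℂ × ℂ × ℂ → ℂ} {s q v w d : ℂ} (hf : DifferentiableAt ℂ f (s, q, v, w))
    (hd : HasDerivAt (fun w' : ℂ => f (s, q, v, w')) d w) :
    fderiv ℂ f (s, q, v, w) (0, 0, 0, 1) = d := by
  have h1 : HasDerivAt (fun w' : ℂ => ((s, q, v, w') : ℂ × ℂ × ℂ × ℂ)) (0, 0, 0, 1) w :=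
    (hasDerivAt_const w s).prodMk ((hasDerivAt_const w q).prodMk
      ((hasDerivAt_const w v).prodMk (hasDerivAt_id w)))
  have h2 := hf.hasFDerivAt.comp_hasDerivAt w h1
  exact h2.unique hd

/-- the cancellation identity -/
theorem cancel (h : S.Ok) {s q v w : ℂ} (hζ : (s, q, v, w) ∈ Om S) (hwv : w ≠ v) :
    fderiv ℂ (fJ S) (s, q, v, w) (0, 0, 0, 1)
      + fR S (s, q, v, w) * fderiv ℂ (fA S) (s, q, v, w) (0, 0, 0, 1)
      = fderiv ℂ (fG S) (s, q, v, w) (0, 0, 0, 1) := by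
  have hn := (isOpen_Om S).mem_nhds hζ
  rw [fderiv_w ((diff_J h).differentiableAt hn) (J_w h hζ hwv),
    fderiv_w ((diff_A h).differentiableAt hn) (A_w h hζ),
    fderiv_w ((diff_G h).differentiableAt hn) (G_w h hζ)]
  ring

end Pool.Agent.Helper76.FT.Leaf
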