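import Pool.Agent.Helper76.FT.LeafOm

/-!
# Leaf functions: relation with momentum and energy, symmetry
-/

set_option autoImplicit false

namespace Pool.Agent.Helper76.FT.Leaf

open Complex Set Filter Topology MeasureTheory

variable {S : Sys}

/-! ### membership -/

theorem seg_nb {s : ℝ} {q v : ℝ} {w : ℂ} (hv : (q, v) ∈ S.Reg s) (hw : (q, w.re) ∈ S.Reg s)
    (him : |w.im| < S.r) {x : ℝ} (hx : x ∈ Icc (0:ℝ) 1) :
    ((q : ℂ), (v : ℂ) + x * (w - v)) ∈ S.Nb s S.r := by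
  have hr : 0 < S.r := lt_of_le_of_lt (abs_nonneg _) him
  refine ⟨(q, v + x * (w.re - v)), ?_, ?_, ?_⟩
  · have h1 := hv.1
    have h2 := hv.2
    have h3 := hw.1
    have h4 := hw.2
    simp only at h1 h2 h3 h4
    have e : v + x * (w.re - v) = (1 - x) * v + x * w.re := by ring
    have hx1 := hx.1
    have hx2 : 0 ≤ 1 - x := by linarith [hx.2]
    constructor
    · show S.V S.a q s ≤ v + x * (w.re - v)
      rw [e]
      nlinarith [mul_le_mul_of_nonneg_left h1 hx2, mul_le_mul_of_nonneg_left h3 hx1]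
    · show v + x * (w.re - v) ≤ S.V S.b q s
      rw [e]
      nlinarith [mul_le_mul_of_nonneg_left h2 hx2, mul_le_mul_of_nonneg_left h4 hx1]
  · simpa using hr
  · have e : (v : ℂ) + x * (w - v) - ((v + x * (w.re - v) : ℝ) : ℂ) = ((x * w.im : ℝ) : ℂ) * I := by
      apply Complex.ext <;> simp
    show ‖(v : ℂ) + x * (w - v) - ((v + x * (w.re - v) : ℝ) : ℂ)‖ < S.r
    rw [e, norm_mul, Complex.norm_I, mul_one, Complex.norm_real, Real.norm_eq_abs, abs_mul,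
      abs_of_nonneg hx.1]
    calc x * |w.im| ≤ 1 * |w.im| := mul_le_mul_of_nonneg_right hx.2 (abs_nonneg _)
      _ < S.r := by rw [one_mul]; exact him

theorem mem_Om (h : S.Ok) {s : ℝ} (hs : s ∈ Icc (0:ℝ) 1) {q v : ℝ} {w : ℂ}
    (hv : (q, v) ∈ S.Reg s) (hw : (q, w.re) ∈ S.Reg s) (him : |w.im| < S.r) :
    ((s : ℂ), (q : ℂ), (v : ℂ), w) ∈ Om S := by
  intro x hx
  have h1 := seg_nb hv hw him hx
  have h2 := h.path s hs _ h1 1 ⟨zero_le_one, le_rfl⟩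
  show ((q : ℂ) - s * ((v : ℂ) + x * (w - v)), (v : ℂ) + x * (w - v)) ∈ S.Nb 0 S.R
  simpa using h2

/-! ### relation with momentum and energy -/

theorem A_eq (h : S.Ok) (hMom : GMom) {s : ℝ} (hs : s ∈ Icc (0:ℝ) 1) {q v : ℝ} {w : ℂ}
    (hv : (q, v) ∈ S.Reg s) (hw : (q, w.re) ∈ S.Reg s) (him : |w.im| < S.r) :
    fA S ((s : ℂ), (q : ℂ), (v : ℂ), w) = S.p s q w - S.p s q v := by
  obtain ⟨k0, M, hk0, hM, -, -, hmom⟩ := hMom S h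
  have hζ := mem_Om h hs hv hw him
  have hF : ∀ x ∈ uIcc (0:ℝ) 1, HasDerivAt (fun x : ℝ => S.p s q ((v : ℂ) + x * (w - v)))
      ((w - v) * kk S (((s : ℂ), (q : ℂ), (v : ℂ), w), (x : ℂ))) x := by
    intro x hx
    rw [uIcc_of_le zero_le_one] at hx
    have h1 := ((hmom s hs).2.2 _ (seg_nb hv hw him hx)).1
    have h2 : HasDerivAt (fun x : ℝ => (x : ℂ)) 1 x := Complex.ofRealCLM.hasDerivAt
    have h3 : HasDerivAt (fun x : ℝ => (v : ℂ) + (x : ℂ) * (w - v)) (1 * (w - v)) x :=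
      (h2.mul_const (w - v)).const_add _
    have h4 := HasDerivAt.comp (h₂ := fun u : ℂ => S.p s q u)
      (h := fun x : ℝ => (v : ℂ) + (x : ℂ) * (w - v)) x h1 h3
    refine HasDerivAt.congr_deriv (f := fun x : ℝ => S.p s q ((v : ℂ) + x * (w - v))) h4 ?_
    simp only [kk, pt]
    ring
  have hi : IntervalIntegrable (fun x : ℝ => (w - v) *
      kk S (((s : ℂ), (q : ℂ), (v : ℂ), w), (x : ℂ))) volume 0 1 := by
    apply ContinuousOn.intervalIntegrable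
    rw [uIcc_of_le zero_le_one]
    exact (cont_kk h hζ).const_smul (w - (v : ℂ)) |>.congr fun x _ => by simp
  have key := intervalIntegral.integral_eq_sub_of_hasDerivAt hF hi
  rw [intervalIntegral.integral_const_mul] at key
  show (w - v) * I0 S ((s : ℂ), (q : ℂ), (v : ℂ), w) = _
  unfold I0
  rw [key]
  simp

theorem JA_eq (h : S.Ok) (hMom : GMom) {s : ℝ} (hs : s ∈ Icc (0:ℝ) 1) {q v : ℝ} {w : ℂ}
    (hv : (q, v) ∈ S.Reg s) (hw : (q, w.re) ∈ S.Reg s) (him : |w.im| < S.r) :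
    fJ S ((s : ℂ), (q : ℂ), (v : ℂ), w) * fA S ((s : ℂ), (q : ℂ), (v : ℂ), w)
      = S.En s q w - S.En s q v := by
  obtain ⟨k0, M, hk0, hM, -, -, hmom⟩ := hMom S h
  have hζ := mem_Om h hs hv hw him
  set ζ : ℂ × ℂ × ℂ × ℂ := ((s : ℂ), (q : ℂ), (v : ℂ), w) with hζd
  have hF : ∀ x ∈ uIcc (0:ℝ) 1, HasDerivAt (fun x : ℝ => S.En s q ((v : ℂ) + x * (w - v)))
      ((w - v) * v * kk S (ζ, (x : ℂ)) + (w - v) ^ 2 * ((x : ℂ) * kk S (ζ, (x : ℂ)))) x := by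
    intro x hx
    rw [uIcc_of_le zero_le_one] at hx
    have h1 := ((hmom s hs).2.2 _ (seg_nb hv hw him hx)).2.1
    have h2 : HasDerivAt (fun x : ℝ => (x : ℂ)) 1 x := Complex.ofRealCLM.hasDerivAt
    have h3 : HasDerivAt (fun x : ℝ => (v : ℂ) + (x : ℂ) * (w - v)) (1 * (w - v)) x :=
      (h2.mul_const (w - v)).const_add _
    have h4 := HasDerivAt.comp (h₂ := fun u : ℂ => S.En s q u)
      (h := fun x : ℝ => (v : ℂ) + (x : ℂ) * (w - v)) x h1 h3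
    refine HasDerivAt.congr_deriv (f := fun x : ℝ => S.En s q ((v : ℂ) + x * (w - v))) h4 ?_
    simp only [kk, pt, hζd]
    ring
  have hc0 := cont_kk h hζ
  have hc1 : ContinuousOn (fun x : ℝ => (x : ℂ) * kk S (ζ, (x : ℂ))) (Icc (0:ℝ) 1) :=
    ContinuousOn.mul (by fun_prop) hc0
  have i0 : IntervalIntegrable (fun x : ℝ => (w - v) * v * kk S (ζ, (x : ℂ))) volume 0 1 := by
    apply ContinuousOn.intervalIntegrable
    rw [uIcc_of_le zero_le_one]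
    exact ContinuousOn.mul continuousOn_const hc0
  have i1 : IntervalIntegrable (fun x : ℝ => (w - v) ^ 2 * ((x : ℂ) * kk S (ζ, (x : ℂ))))
      volume 0 1 := by
    apply ContinuousOn.intervalIntegrable
    rw [uIcc_of_le zero_le_one]
    exact ContinuousOn.mul continuousOn_const hc1
  have key := intervalIntegral.integral_eq_sub_of_hasDerivAt hF (i0.add i1)
  rw [intervalIntegral.integral_add i0 i1, intervalIntegral.integral_const_mul,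
    intervalIntegral.integral_const_mul] at key
  have h0 : I0 S ζ ≠ 0 := I0_ne h hζ
  have e1 : fJ S ζ * fA S ζ = (w - v) * v * I0 S ζ + (w - v) ^ 2 * I1 S ζ := by
    show ((v : ℂ) + (w - v) * I1 S ζ / I0 S ζ) * ((w - v) * I0 S ζ) = _
    field_simp
  rw [e1]
  unfold I0 I1
  rw [key]
  simp

/-! ### conjugation symmetry -/

/-- conjugation -/
def cj (ζ : ℂ × ℂ × ℂ × ℂ) : ℂ × ℂ × ℂ × ℂ :=
  ((starRingEnd ℂ) ζ.1, (starRingEnd ℂ) ζ.2.1, (starRingEnd ℂ) ζ.2.2.1, (starRingEnd ℂ) ζ.2.2.2)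

theorem pt_cj (ζ : ℂ × ℂ × ℂ × ℂ) (x : ℝ) :
    pt (cj ζ, (x : ℂ)) = ((starRingEnd ℂ) (pt (ζ, (x : ℂ))).1,
      (starRingEnd ℂ) (pt (ζ, (x : ℂ))).2) := by
  simp [pt, cj]

theorem sb_cj (ζ : ℂ × ℂ × ℂ × ℂ) (x : ℝ) : sb (cj ζ, (x : ℂ)) = cj (sb (ζ, (x : ℂ))) := by
  simp [sb, cj]

theorem nb_cj {t r : ℝ} {z : ℂ × ℂ} (hz : z ∈ S.Nb t r) :
    ((starRingEnd ℂ) z.1, (starRingEnd ℂ) z.2) ∈ S.Nb t r := by
  obtain ⟨y, hy, h1, h2⟩ := hz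
  refine ⟨y, hy, ?_, ?_⟩
  · have e : (starRingEnd ℂ) z.1 - (y.1 : ℂ) = (starRingEnd ℂ) (z.1 - y.1) := by simp
    show ‖(starRingEnd ℂ) z.1 - (y.1 : ℂ)‖ < r
    rw [e, RCLike.norm_conj]; exact h1
  · have e : (starRingEnd ℂ) z.2 - (y.2 : ℂ) = (starRingEnd ℂ) (z.2 - y.2) := by simp
    show ‖(starRingEnd ℂ) z.2 - (y.2 : ℂ)‖ < r
    rw [e, RCLike.norm_conj]; exact h2

theorem cj_mem {ζ : ℂ × ℂ × ℂ × ℂ} (hζ : ζ ∈ Om S) : cj ζ ∈ Om S := by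
  intro x hx
  show pt (cj ζ, (x : ℂ)) ∈ S.Nb 0 S.R
  rw [pt_cj]
  exact nb_cj (hζ x hx)

theorem int_conj (f : ℝ → ℂ) :
    ∫ x in (0:ℝ)..1, (starRingEnd ℂ) (f x) = (starRingEnd ℂ) (∫ x in (0:ℝ)..1, f x) := by
  rw [intervalIntegral.integral_of_le zero_le_one, intervalIntegral.integral_of_le zero_le_one]
  exact integral_conj

theorem kk_cj (h : S.Ok) {ζ : ℂ × ℂ × ℂ × ℂ} (hζ : ζ ∈ Om S) {x : ℝ} (hx : x ∈ Icc (0:ℝ) 1) :
    kk S (cj ζ, (x : ℂ)) = (starRingEnd ℂ) (kk S (ζ, (x : ℂ))) := by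
  unfold kk
  rw [pt_cj]
  exact h.κsym _ (hζ x hx)

theorem I0_cj (h : S.Ok) {ζ : ℂ × ℂ × ℂ × ℂ} (hζ : ζ ∈ Om S) :
    I0 S (cj ζ) = (starRingEnd ℂ) (I0 S ζ) := by
  unfold I0
  rw [← int_conj]
  refine intervalIntegral.integral_congr fun x hx => ?_
  rw [uIcc_of_le zero_le_one] at hx
  exact kk_cj h hζ hx

theorem I1_cj (h : S.Ok) {ζ : ℂ × ℂ × ℂ × ℂ} (hζ : ζ ∈ Om S) :
    I1 S (cj ζ) = (starRingEnd ℂ) (I1 S ζ) := by
  unfold I1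
  rw [← int_conj]
  refine intervalIntegral.integral_congr fun x hx => ?_
  rw [uIcc_of_le zero_le_one] at hx
  simp only [kk_cj h hζ hx, map_mul, Complex.conj_ofReal]

theorem LL_cj (h : S.Ok) {ζ : ℂ × ℂ × ℂ × ℂ} (hζ : ζ ∈ Om S) :
    LL S (cj ζ) = (starRingEnd ℂ) (LL S ζ) := by
  unfold LL
  rw [← int_conj]
  refine intervalIntegral.integral_congr fun x hx => ?_
  rw [uIcc_of_le zero_le_one] at hx
  simp only [kk_cj h hζ hx, sb_cj, I0_cj h (sb_mem hζ hx), map_div₀]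

theorem A_cj (h : S.Ok) {ζ : ℂ × ℂ × ℂ × ℂ} (hζ : ζ ∈ Om S) :
    fA S (cj ζ) = (starRingEnd ℂ) (fA S ζ) := by
  unfold fA
  rw [I0_cj h hζ]
  simp [cj]

theorem R_cj (h : S.Ok) {ζ : ℂ × ℂ × ℂ × ℂ} (hζ : ζ ∈ Om S) :
    fR S (cj ζ) = (starRingEnd ℂ) (fR S ζ) := by
  unfold fR
  rw [I0_cj h hζ, I1_cj h hζ]
  simp

theorem J_cj (h : S.Ok) {ζ : ℂ × ℂ × ℂ × ℂ} (hζ : ζ ∈ Om S) :
    fJ S (cj ζ) = (starRingEnd ℂ) (fJ S ζ) := by
  unfold fJ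
  rw [I0_cj h hζ, I1_cj h hζ]
  simp [cj]

theorem G_cj (h : S.Ok) {ζ : ℂ × ℂ × ℂ × ℂ} (hζ : ζ ∈ Om S) :
    fG S (cj ζ) = (starRingEnd ℂ) (fG S ζ) := by
  unfold fG
  rw [LL_cj h hζ]
  simp [cj]

/-- real vectors -/
def rv (s q v w : ℝ) : ℂ × ℂ × ℂ × ℂ := ((s : ℂ), (q : ℂ), (v : ℂ), (w : ℂ))

theorem cj_rv (s q v w : ℝ) : cj (rv s q v w) = rv s q v w := by simp [cj, rv]

/-- a conjugation symmetric function is real at real points -/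
theorem im_real {f : ℂ × ℂ × ℂ × ℂ → ℂ} (hf : ∀ ζ ∈ Om S, f (cj ζ) = (starRingEnd ℂ) (f ζ))
    {s q v w : ℝ} (hζ : rv s q v w ∈ Om S) : (f (rv s q v w)).im = 0 := by
  have h1 := hf _ hζ
  rw [cj_rv] at h1
  exact Complex.conj_eq_iff_im.1 h1.symm

/-- and so is its derivative on real vectors -/
theorem im_fderiv_real {f : ℂ × ℂ × ℂ × ℂ → ℂ} (hf : ∀ ζ ∈ Om S, f (cj ζ) = (starRingEnd ℂ) (f ζ))
    (hd : DifferentiableOn ℂ f (Om S)) {s q v w : ℝ} (hζ : rv s q v w ∈ Om S) (a b c d : ℝ) :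
    (fderiv ℂ f (rv s q v w) (rv a b c d)).im = 0 := by
  have hl : HasDerivAt (fun t : ℝ => rv (s + t * a) (q + t * b) (v + t * c) (w + t * d))
      (rv a b c d) 0 := by
    have h1 : ∀ x y : ℝ, HasDerivAt (fun t : ℝ => ((x + t * y : ℝ) : ℂ)) (y : ℂ) 0 := by
      intro x y
      have h2 : HasDerivAt (fun t : ℝ => x + t * y) y 0 := by
        have := ((hasDerivAt_id (0:ℝ)).mul_const y).const_add x
        simpa using this
      exact h2.ofReal_comp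
    exact (h1 s a).prodMk ((h1 q b).prodMk ((h1 v c).prodMk (h1 w d)))
  have e0 : rv (s + 0 * a) (q + 0 * b) (v + 0 * c) (w + 0 * d) = rv s q v w := by simp
  have h1 : HasFDerivAt f (fderiv ℂ f (rv s q v w)) (rv (s + 0 * a) (q + 0 * b) (v + 0 * c)
      (w + 0 * d)) := by
    rw [e0]
    exact (hd.differentiableAt ((isOpen_Om S).mem_nhds hζ)).hasFDerivAt
  have h2 : HasDerivAt (fun t : ℝ => f (rv (s + t * a) (q + t * b) (v + t * c) (w + t * d)))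
      (fderiv ℂ f (rv s q v w) (rv a b c d)) 0 :=
    HasFDerivAt.comp_hasDerivAt (l := f)
      (f := fun t : ℝ => rv (s + t * a) (q + t * b) (v + t * c) (w + t * d)) 0
      (h1.restrictScalars ℝ) hl
  have h3 : HasDerivAt (fun t : ℝ => (f (rv (s + t * a) (q + t * b) (v + t * c) (w + t * d))).im)
      (fderiv ℂ f (rv s q v w) (rv a b c d)).im 0 :=
    (Complex.imCLM.hasFDerivAt.comp_hasDerivAt 0 h2)
  have h4 : (fun t : ℝ => (f (rv (s + t * a) (q + t * b) (v + t * c) (w + t * d))).im)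
      =ᶠ[𝓝 0] fun _ => (0:ℝ) := by
    have h5 : ∀ᶠ t in 𝓝 (0:ℝ), rv (s + t * a) (q + t * b) (v + t * c) (w + t * d) ∈ Om S :=
      hl.continuousAt.eventually_mem (by
        rw [e0]; exact (isOpen_Om S).mem_nhds hζ)
    filter_upwards [h5] with t ht
    exact im_real hf ht
  have h6 : HasDerivAt (fun _ : ℝ => (0:ℝ)) (fderiv ℂ f (rv s q v w) (rv a b c d)).im 0 :=
    h3.congr_of_eventuallyEq h4.symm
  exact h6.unique (hasDerivAt_const _ _)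

/-! ### periodicity -/

theorem nb_add {t r : ℝ} (ht : t ∈ Icc (0:ℝ) 1) (h : S.Ok) {z : ℂ × ℂ} (hz : z ∈ S.Nb t r) :
    (z.1 + 1, z.2) ∈ S.Nb t r := by
  obtain ⟨y, hy, h1, h2⟩ := hz
  have hab : S.a ≤ S.b := (h.ha.trans h.hb).le
  refine ⟨(y.1 + 1, y.2), ?_, ?_, h2⟩
  · refine ⟨?_, ?_⟩
    · show S.V S.a (y.1 + 1) t ≤ y.2
      rw [h.Vper S.a ⟨le_rfl, hab⟩ y.1 t ht]; exact hy.1
    · show y.2 ≤ S.V S.b (y.1 + 1) t
      rw [h.Vper S.b ⟨hab, le_rfl⟩ y.1 t ht]; exact hy.2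
  · have e : z.1 + 1 - ((y.1 + 1 : ℝ) : ℂ) = z.1 - y.1 := by push_cast; ring
    show ‖z.1 + 1 - ((y.1 + 1 : ℝ) : ℂ)‖ < r
    rw [e]; exact h1

/-- translation of `q` -/
def tr (ζ : ℂ × ℂ × ℂ × ℂ) : ℂ × ℂ × ℂ × ℂ := (ζ.1, ζ.2.1 + 1, ζ.2.2.1, ζ.2.2.2)

theorem pt_tr (ζ : ℂ × ℂ × ℂ × ℂ) (x : ℂ) :
    pt (tr ζ, x) = ((pt (ζ, x)).1 + 1, (pt (ζ, x)).2) := by
  simp only [pt, tr, Prod.mk.injEq, and_true]
  ring

theorem sb_tr (ζ : ℂ × ℂ × ℂ × ℂ) (x : ℂ) : sb (tr ζ, x) = tr (sb (ζ, x)) := rfl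

theorem tr_mem (h : S.Ok) {ζ : ℂ × ℂ × ℂ × ℂ} (hζ : ζ ∈ Om S) : tr ζ ∈ Om S := by
  intro x hx
  show pt (tr ζ, (x : ℂ)) ∈ S.Nb 0 S.R
  rw [pt_tr]
  exact nb_add ⟨le_rfl, zero_le_one⟩ h (hζ x hx)

theorem kk_tr (h : S.Ok) {ζ : ℂ × ℂ × ℂ × ℂ} (hζ : ζ ∈ Om S) {x : ℝ} (hx : x ∈ Icc (0:ℝ) 1) :
    kk S (tr ζ, (x : ℂ)) = kk S (ζ, (x : ℂ)) := by
  unfold kk
  rw [pt_tr]
  exact h.κper _ (hζ x hx)

theorem I0_tr (h : S.Ok) {ζ : ℂ × ℂ × ℂ × ℂ} (hζ : ζ ∈ Om S) : I0 S (tr ζ) = I0 S ζ := by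
  unfold I0
  refine intervalIntegral.integral_congr fun x hx => ?_
  rw [uIcc_of_le zero_le_one] at hx
  exact kk_tr h hζ hx

theorem I1_tr (h : S.Ok) {ζ : ℂ × ℂ × ℂ × ℂ} (hζ : ζ ∈ Om S) : I1 S (tr ζ) = I1 S ζ := by
  unfold I1
  refine intervalIntegral.integral_congr fun x hx => ?_
  rw [uIcc_of_le zero_le_one] at hx
  simp only [kk_tr h hζ hx]

theorem LL_tr (h : S.Ok) {ζ : ℂ × ℂ × ℂ × ℂ} (hζ : ζ ∈ Om S) : LL S (tr ζ) = LL S ζ := by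
  unfold LL
  refine intervalIntegral.integral_congr fun x hx => ?_
  rw [uIcc_of_le zero_le_one] at hx
  simp only [kk_tr h hζ hx, sb_tr, I0_tr h (sb_mem hζ hx)]

theorem A_tr (h : S.Ok) {ζ : ℂ × ℂ × ℂ × ℂ} (hζ : ζ ∈ Om S) : fA S (tr ζ) = fA S ζ := by
  unfold fA
  rw [I0_tr h hζ]; rfl

theorem R_tr (h : S.Ok) {ζ : ℂ × ℂ × ℂ × ℂ} (hζ : ζ ∈ Om S) : fR S (tr ζ) = fR S ζ := by
  unfold fR
  rw [I0_tr h hζ, I1_tr h hζ]

theorem J_tr (h : S.Ok) {ζ : ℂ × ℂ × ℂ × ℂ} (hζ : ζ ∈ Om S) : fJ S (tr ζ) = fJ S ζ := by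
  unfold fJ
  rw [I0_tr h hζ, I1_tr h hζ]; rfl

theorem G_tr (h : S.Ok) {ζ : ℂ × ℂ × ℂ × ℂ} (hζ : ζ ∈ Om S) : fG S (tr ζ) = fG S ζ := by
  unfold fG
  rw [LL_tr h hζ]; rfl

end Pool.Agent.Helper76.FT.Leaf
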