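import Pool.Agent.Helper76.FT.Defs

/-!
# The system in velocity coordinates

`S : Sys` is a foliated twist map near a compact annulus, suspended by straight world lines:
between two integer times a particle moves with constant velocity, at an integer time the velocity
`w` at the position `q` is replaced by `K q w`.

* leaves are labelled by `Y` in `[a, b]`, `V Y q t` is the velocity of the leaf `Y` at the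
  position `q` at the time `t` in `[0, 1]` (`t = 0` just after a kick, `t = 1` just before a kick);
  the leaf `Y = 0` is at rest;
* `κ x w` (complex) is the density `∂ (momentum) / ∂ w` at time `0`;
* `p t q w` is the momentum, `En t q w` the energy.
-/

set_option autoImplicit false

namespace Pool.Agent.Helper76.FT

open Complex Set Filter Topology

/-- data of a system -/
structure Sys where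
  a : ℝ
  b : ℝ
  r : ℝ
  R : ℝ
  V : ℝ → ℝ → ℝ → ℝ
  κ : ℂ → ℂ → ℂ
  K : ℂ → ℂ → ℂ
  Ki : ℂ → ℂ → ℂ

namespace Sys

variable (S : Sys)

/-- real region at time `t` (pairs position, velocity) -/
def Reg (t : ℝ) : Set (ℝ × ℝ) := {y | S.V S.a y.1 t ≤ y.2 ∧ y.2 ≤ S.V S.b y.1 t}

/-- complex neighbourhood of the region -/
def Nb (t r : ℝ) : Set (ℂ × ℂ) :=
  {z | ∃ y ∈ S.Reg t, ‖z.1 - (y.1 : ℂ)‖ < r ∧ ‖z.2 - (y.2 : ℂ)‖ < r}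

/-- momentum -/
noncomputable def p (t : ℝ) (q w : ℂ) : ℂ := w * ∫ s in (0:ℝ)..1, S.κ (q - t * s * w) (s * w)

/-- energy as a function of the velocity -/
noncomputable def En (t : ℝ) (q w : ℂ) : ℂ :=
  w ^ 2 * ∫ s in (0:ℝ)..1, (s : ℂ) * S.κ (q - t * s * w) (s * w)

/-- circle map of the leaf `Y` (lift) -/
noncomputable def g (Y x : ℝ) : ℝ := x + S.V Y x 0

/-- inverse of `g` -/
noncomputable def gi (Y x : ℝ) : ℝ := x - S.V Y x 1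

/-- position at integer times of the world line of the leaf `Y` through `x` at time `0` -/
noncomputable def orb (Y x : ℝ) : ℤ → ℝ
  | Int.ofNat n => (S.g Y)^[n] x
  | Int.negSucc n => (S.gi Y)^[n + 1] x

/-- velocity in the layer `[n, n + 1]` -/
noncomputable def vel (Y x : ℝ) (n : ℤ) : ℝ := S.V Y (S.orb Y x n) 0

/-- Jacobi fields along a real world line -/
structure Jac (Y x : ℝ) (ξ η : ℤ → ℝ) : Prop where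
  pos : ∀ n, ξ (n + 1) = ξ n + η n
  kick : ∀ n, (η (n + 1) : ℂ)
    = deriv (fun q => S.K q (S.vel Y x n : ℂ)) (S.orb Y x (n + 1) : ℂ) * (ξ (n + 1) : ℂ)
      + deriv (fun w => S.K (S.orb Y x (n + 1) : ℂ) w) (S.vel Y x n : ℂ) * (η n : ℂ)

/-- mean momentum of a leaf -/
noncomputable def mn (Y : ℝ) : ℝ := ∫ x in (0:ℝ)..1, (S.p 0 (x : ℂ) (S.V Y x 0 : ℂ)).re

/-- properties of a system -/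
structure Ok : Prop where
  ha : S.a < 0
  hb : 0 < S.b
  hr : 0 < S.r
  hR : S.r ≤ S.R
  Vcont : ContinuousOn (fun z : ℝ × ℝ × ℝ => S.V z.1 z.2.1 z.2.2)
    (Icc S.a S.b ×ˢ (univ ×ˢ Icc (0:ℝ) 1))
  Vper : ∀ Y ∈ Icc S.a S.b, ∀ q : ℝ, ∀ t ∈ Icc (0:ℝ) 1, S.V Y (q + 1) t = S.V Y q t
  Vmono : ∀ Y ∈ Icc S.a S.b, ∀ Y' ∈ Icc S.a S.b, Y < Y' → ∀ q : ℝ, ∀ t ∈ Icc (0:ℝ) 1,
    S.V Y q t < S.V Y' q t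
  Vzero : ∀ q : ℝ, ∀ t ∈ Icc (0:ℝ) 1, S.V 0 q t = 0
  Vline : ∀ Y ∈ Icc S.a S.b, ∀ q : ℝ, ∀ s ∈ Icc (0:ℝ) 1, ∀ t ∈ Icc (0:ℝ) 1,
    S.V Y (q + (s - t) * S.V Y q t) s = S.V Y q t
  path : ∀ t ∈ Icc (0:ℝ) 1, ∀ z ∈ S.Nb t S.r, ∀ s ∈ Icc (0:ℝ) 1,
    (z.1 - t * s * z.2, s * z.2) ∈ S.Nb 0 S.R
  κhol : DifferentiableOn ℂ (fun z : ℂ × ℂ => S.κ z.1 z.2) (S.Nb 0 S.R)
  κbd : ∃ M : ℝ, ∀ z ∈ S.Nb 0 S.R, ‖S.κ z.1 z.2‖ ≤ M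
  κper : ∀ z ∈ S.Nb 0 S.R, S.κ (z.1 + 1) z.2 = S.κ z.1 z.2
  κsym : ∀ z ∈ S.Nb 0 S.R,
    S.κ ((starRingEnd ℂ) z.1) ((starRingEnd ℂ) z.2) = (starRingEnd ℂ) (S.κ z.1 z.2)
  κpos : ∃ k0 : ℝ, 0 < k0 ∧ ∀ z ∈ S.Nb 0 S.R, k0 ≤ (S.κ z.1 z.2).re
  Khol : DifferentiableOn ℂ (fun z : ℂ × ℂ => S.K z.1 z.2) (S.Nb 1 S.r)
  Kihol : DifferentiableOn ℂ (fun z : ℂ × ℂ => S.Ki z.1 z.2) (S.Nb 0 S.r)
  Kbd : ∃ M : ℝ, (∀ z ∈ S.Nb 1 S.r, ‖S.K z.1 z.2‖ ≤ M) ∧ ∀ z ∈ S.Nb 0 S.r, ‖S.Ki z.1 z.2‖ ≤ M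
  Kper : ∀ z ∈ S.Nb 1 S.r, S.K (z.1 + 1) z.2 = S.K z.1 z.2
  Kiper : ∀ z ∈ S.Nb 0 S.r, S.Ki (z.1 + 1) z.2 = S.Ki z.1 z.2
  Ksym : ∀ z ∈ S.Nb 1 S.r,
    S.K ((starRingEnd ℂ) z.1) ((starRingEnd ℂ) z.2) = (starRingEnd ℂ) (S.K z.1 z.2)
  Kisym : ∀ z ∈ S.Nb 0 S.r,
    S.Ki ((starRingEnd ℂ) z.1) ((starRingEnd ℂ) z.2) = (starRingEnd ℂ) (S.Ki z.1 z.2)
  KV : ∀ Y ∈ Icc S.a S.b, ∀ q : ℝ, S.K (q : ℂ) (S.V Y q 1 : ℂ) = (S.V Y q 0 : ℂ)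
  KiV : ∀ Y ∈ Icc S.a S.b, ∀ q : ℝ, S.Ki (q : ℂ) (S.V Y q 0 : ℂ) = (S.V Y q 1 : ℂ)
  KiK : ∀ z ∈ S.Nb 1 S.r, S.Ki z.1 (S.K z.1 z.2) = z.2
  KKi : ∀ z ∈ S.Nb 0 S.r, S.K z.1 (S.Ki z.1 z.2) = z.2
  kick : ∀ z ∈ S.Nb 1 S.r, S.p 0 z.1 (S.K z.1 z.2) = S.p 1 z.1 z.2
  disc : ∀ Y ∈ Icc S.a S.b, ∀ x : ℝ, ∀ ξ η : ℤ → ℝ, S.Jac Y x ξ η → ξ 0 ≤ 0 → 0 ≤ ξ 1 →
    ¬ (ξ 0 = 0 ∧ ξ 1 = 0) → (∀ n : ℤ, 2 ≤ n → 0 < ξ n) ∧ (∀ n : ℤ, n ≤ -1 → ξ n < 0)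
  div : ∀ Y ∈ Icc S.a S.b, ∀ Y' ∈ Icc S.a S.b, Y < Y' → ∀ x x' C : ℝ,
    (∃ n : ℕ, (S.g Y)^[n] x + C < (S.g Y')^[n] x') ∧
    (∃ n : ℕ, (S.gi Y')^[n] x' + C < (S.gi Y)^[n] x)
  per : ∀ Y ∈ Icc S.a S.b,
    ((∃ (N : ℕ) (m : ℤ), ∀ x : ℝ, (S.g Y)^[N + 1] x = x + m) ∧
      AnalyticOnNhd ℝ (fun x : ℝ => S.V Y x 0) univ) ∨
    (∀ (n : ℕ) (k : ℤ) (x : ℝ), (S.g Y)^[n + 1] x ≠ x + k)

end Sys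

/-- complex torus of class `c` -/
structure Tor (S : Sys) (δ : ℝ) (w : ℂ → ℝ → ℂ) (ρ : ℝ) (c : ℂ) : Prop where
  hρ : 0 < ρ
  sh : SH w ρ
  nb : ∀ z ∈ Str ρ, ∀ t ∈ Icc (0:ℝ) 1, (z, w z t) ∈ S.Nb t S.r
  line : ∀ z ∈ Str ρ, ∀ s ∈ Icc (0:ℝ) 1, ∀ t ∈ Icc (0:ℝ) 1,
    z + (s - t) * w z t ∈ Str ρ → w (z + (s - t) * w z t) s = w z t
  kick : ∀ z ∈ Str ρ, w z 0 = S.K z (w z 1)
  pos : ∀ x : ℝ, ∀ t ∈ Icc (0:ℝ) 1, 0 < (w (x : ℂ) t).im ∧ (w (x : ℂ) t).im ≤ δ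
  reg : ∀ x : ℝ, ∀ t ∈ Icc (0:ℝ) 1, (x, (w (x : ℂ) t).re) ∈ S.Reg t
  mean : ∫ x in (0:ℝ)..1, S.p 0 (x : ℂ) (w (x : ℂ) 0) = c

/-- velocity field of the torus on space-time (right-continuous at integer times) -/
noncomputable def wt (w : ℂ → ℝ → ℂ) (z : ℝ × ℝ) : ℂ := w (z.1 : ℂ) (Int.fract z.2)

/-- local holomorphic coordinate at `z₁`: position at the time of `z₁`, minus position of `z₁` -/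
noncomputable def chi (w : ℂ → ℝ → ℂ) (z₁ z : ℝ × ℝ) : ℂ :=
  ((z.1 - z₁.1 : ℝ) : ℂ) + ((z₁.2 - z.2 : ℝ) : ℂ) * wt w z

/-- `f` is torus-holomorphic at `z₁` -/
def TH (w : ℂ → ℝ → ℂ) (f : ℝ × ℝ → ℂ) (z₁ : ℝ × ℝ) : Prop :=
  ∃ h : ℂ → ℂ, AnalyticAt ℂ h 0 ∧ ∀ᶠ z in 𝓝 z₁, f z = h (chi w z₁ z)

end Pool.Agent.Helper76.FT
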